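import Pool.Agent.Y638.RF.Dual
import Pool.Agent.Q225.SP.Xor

set_option autoImplicit false

/-! # Duality of hypergraphs: circuits of real programs -/

namespace Pool.Agent.Q225.SP

open Finset Pool.Agent.Y638.RF
open Pool.Agent.TH697.Form (IsProb)
open Pool.Agent.TH697.Row (ApproximatesOn)
open Pool.Agent.Y638.RF.Dual (dual)

/-- The edges of the first hypergraph. -/
def lefts (M M' : ℕ) : Finset (Fin M ⊕ Fin M') := univ.map Function.Embedding.inl

theorem card_lefts (M M' : ℕ) : (lefts M M').card = M := by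
  rw [lefts, card_map, card_univ, Fintype.card_fin]

theorem dual_bound {k M M' a c w : ℕ} (hk : 9 ≤ k) (hM : (2 * k + 1).choose (k + 1) + 1 ≤ M)
    (hM2 : M ≤ 16 ^ k) (hM' : (2 * k + 1).choose (k + 1) ≤ M') (ha : 1 ≤ a)
    (hak : 400 * (a * k) ≤ (2 * k).choose k) (hw : 1 ≤ w) {Ω : Type} [Fintype Ω] (μ : Ω → ℝ)
    (hμ : IsProb μ)
    (C : Ω → Circuit (Fin M ⊕ Fin M') (fun _ => Finset (Fin (2 * k))) w (2 ^ c))
    (hC : ∀ ω, (C ω).SizeLE (M ^ a))
    (hF : ApproximatesOn μ (fun ω => (C ω).eval) (fun _ => True) dual) :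
    (M : ℝ) * ((2 * k).choose k : ℕ) ≤
      5100 * (a * k + w * c) * mean μ (fun ω => (C ω).load (lefts M M')) := by
  classical
  obtain ⟨h1, h2, h3, h4, h5⟩ := Dual.facts hk hM hM2
  have hk' : (9 : ℝ) ≤ k := by exact_mod_cast hk
  have hw' : (1 : ℝ) ≤ w := by exact_mod_cast hw
  have ha' : (1 : ℝ) ≤ a := by exact_mod_cast ha
  have hc' : (0 : ℝ) ≤ c := Nat.cast_nonneg c
  have hak' : 400 * ((a : ℝ) * k) ≤ ((2 * k).choose k : ℕ) := by exact_mod_cast hak
  have hM3 : 4 * (2 * k).choose k * (2 * M ^ a + 1) + 2 + M ^ a ≤ M ^ (a + 2) := by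
    have e1 : 1 ≤ M ^ a := Nat.one_le_pow _ _ (by omega)
    have e2 : 4 * (2 * k).choose k * (2 * M ^ a + 1) ≤ 4 * M * (3 * M ^ a) :=
      Nat.mul_le_mul (Nat.mul_le_mul_left _ h1) (by omega)
    have e3 : 4 * M * (3 * M ^ a) = 12 * (M * M ^ a) := by ring
    have e4 : M ^ a ≤ M * M ^ a := Nat.le_mul_of_pos_left _ (by omega)
    have e5 : M ^ (a + 2) = M * (M * M ^ a) := by ring
    have e6 : 36000 * (M * M ^ a) ≤ M * (M * M ^ a) := Nat.mul_le_mul_right _ h2
    rw [e5]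
    omega
  have hlogM : Real.logb 2 ((M ^ (a + 2) : ℕ) : ℝ) ≤ 12 * (a * k) := by
    push_cast
    rw [Real.logb_pow]
    push_cast
    have e1 : ((a : ℝ) + 2) * Real.logb 2 M ≤ (3 * a) * (4 * k) :=
      mul_le_mul (by linarith) h3 h4 (by linarith)
    linarith
  have hlogq : Real.logb 2 ((2 ^ c : ℕ) : ℝ) ≤ c := by
    push_cast
    rw [Real.logb_pow, Real.logb_self_eq_one (by norm_num), mul_one]
  have h := circuit_bound μ hμ (M ^ a) C hC (fun _ => True) dual hF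
    (Nat.one_le_two_pow) hw ((2 * k).choose k) (M ^ (a + 2)) hM3 (lefts M M')
    (T := Dual.Tk k) (by
      intro x hx
      rw [lefts, mem_map] at hx
      obtain ⟨i, -, rfl⟩ := hx
      exact Dual.asks (by omega) hM hM' i) (12 * (a * k)) hlogM (by
      rw [Dual.card_Tk]
      linarith) c hlogq ((M : ℝ) * ((2 * k).choose k : ℕ)) (by
      rw [card_lefts, Dual.card_Tk])
  refine h.trans (mul_le_mul_of_nonneg_right ?_ (mean_nonneg μ hμ _))
  have k1 : 9 ≤ (a : ℝ) * k := by nlinarith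
  have k2 : 2 * ((w : ℝ) - 1) * c ≤ 2 * (w * c) := by nlinarith
  have k3 : 0 ≤ (w : ℝ) * c := by positivity
  linarith

end Pool.Agent.Q225.SP
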