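import Pool.Agent.Y638.RF.MinPlus
import Pool.Agent.Q225.SP.Xor

set_option autoImplicit false

/-! # Shortest paths: circuits of real programs -/

namespace Pool.Agent.Q225.SP

open Finset Pool.Agent.Y638.RF
open Pool.Agent.TH697.Form (IsProb)
open Pool.Agent.TH697.Row (ApproximatesOn)
open Pool.Agent.TH697.Form.MinPlus (Item InRange shortcut)

theorem minPlus_bound {n a c w : ℕ} (hn : 64 ≤ n) (ha : 1 ≤ a) (han : a ≤ n) (hw : 1 ≤ w)
    {Ω : Type} [Fintype Ω] (μ : Ω → ℝ) (hμ : IsProb μ)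
    (C : Ω → Circuit (Option (Fin n)) (Item n) w (n ^ c)) (hC : ∀ ω, (C ω).SizeLE (n ^ a))
    (hF : ApproximatesOn μ (fun ω => (C ω).eval) (InRange n (n + 1)) (shortcut n)) :
    (n : ℝ) ^ 3 ≤ 1900 * (a + w * c) * mean μ (fun ω => (C ω).load (somes n)) := by
  have hn' : (64 : ℝ) ≤ n := by exact_mod_cast hn
  have ha' : (1 : ℝ) ≤ a := by exact_mod_cast ha
  have han' : (a : ℝ) ≤ n := by exact_mod_cast han
  have hw' : (1 : ℝ) ≤ w := by exact_mod_cast hw
  have hc' : (0 : ℝ) ≤ c := Nat.cast_nonneg c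
  obtain ⟨b, hb⟩ : ∃ b, b = Nat.log 2 n := ⟨_, rfl⟩
  have hb6 : 6 ≤ b := by
    have := Nat.log_mono_right (b := 2) hn
    rw [hb]
    rwa [show Nat.log 2 64 = 6 by decide +kernel] at this
  have hpow : 2 ^ b ≤ n := by
    rw [hb]
    exact Nat.pow_log_le_self 2 (by omega)
  have hpow2 : n < 2 ^ (b + 1) := by
    have := Nat.lt_pow_succ_log_self (b := 2) (by norm_num) n
    rw [hb]
    exact this
  obtain ⟨l, hl⟩ : ∃ l : ℝ, l = Real.logb 2 (n : ℝ) := ⟨_, rfl⟩
  have hb' : (6 : ℝ) ≤ b := by exact_mod_cast hb6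
  have hl1 : l ≤ 7 / 6 * b := by
    rw [hl]
    have h1 : (n : ℝ) ≤ (2 : ℝ) ^ (b + 1) := by exact_mod_cast hpow2.le
    have h2 := Real.logb_le_logb_of_le (by norm_num : (1 : ℝ) < 2) (by linarith) h1
    rw [Real.logb_pow, Real.logb_self_eq_one (by norm_num), mul_one] at h2
    push_cast at h2
    linarith
  have hl2 : 6 ≤ l := by
    rw [hl]
    have h1 : (2 : ℝ) ^ 6 ≤ n := by linarith
    have h2 := Real.logb_le_logb_of_le (by norm_num : (1 : ℝ) < 2) (by positivity) h1
    rw [Real.logb_pow, Real.logb_self_eq_one (by norm_num), mul_one] at h2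
    norm_num at h2
    exact h2
  have hM : 4 * n ^ 3 * (2 * n ^ a + 1) + 2 + n ^ a ≤ n ^ (a + 4) := by
    have h1 : 1 ≤ n ^ a := Nat.one_le_pow _ _ (by omega)
    have h2 : 4 * n ^ 3 * (2 * n ^ a + 1) ≤ 4 * n ^ 3 * (3 * n ^ a) :=
      Nat.mul_le_mul_left _ (by omega)
    have h3 : 4 * n ^ 3 * (3 * n ^ a) = 12 * (n ^ 3 * n ^ a) := by ring
    have h4 : n ^ a ≤ n ^ 3 * n ^ a := Nat.le_mul_of_pos_left _ (by positivity)
    have h5 : n ^ (a + 4) = n * (n ^ 3 * n ^ a) := by ring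
    have h6 : 64 * (n ^ 3 * n ^ a) ≤ n * (n ^ 3 * n ^ a) := Nat.mul_le_mul_right _ hn
    rw [h5]
    omega
  have hlogM : Real.logb 2 ((n ^ (a + 4) : ℕ) : ℝ) ≤ ((a : ℝ) + 4) * l := by
    push_cast
    rw [Real.logb_pow, ← hl]
    push_cast
    exact le_rfl
  have hlogq : Real.logb 2 ((n ^ c : ℕ) : ℝ) ≤ c * l := by
    push_cast
    rw [Real.logb_pow, ← hl]
  have hT : (Fintype.card (Fin n × Fin n × Fin b) : ℝ) = (n : ℝ) * n * b := by
    rw [Fintype.card_prod, Fintype.card_prod, Fintype.card_fin, Fintype.card_fin]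
    push_cast
    ring
  have h := circuit_bound μ hμ (n ^ a) C hC (InRange n (2 ^ b + 1)) (shortcut n)
    (MinPlus.approx_mono μ _ _ _ _ (fun x hx =>
      Pool.Agent.TH457.Ary.MinPlus.inRange_mono (by omega) x hx) hF)
    (Nat.one_le_pow _ _ (by omega)) hw (n ^ 3) (n ^ (a + 4)) hM (somes n)
    (T := Fin n × Fin n × Fin b) (by
      intro x hx
      rw [somes, mem_map] at hx
      obtain ⟨i, -, rfl⟩ := hx
      exact MinPlus.asks hpow i) (((a : ℝ) + 4) * l) hlogM (by
      rw [hT]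
      -- `25 (a + 4) l ≤ n n b`
      have h1 : ((a : ℝ) + 4) * l ≤ (n + 4) * l :=
        mul_le_mul_of_nonneg_right (by linarith) (by linarith)
      have h2 : ((n : ℝ) + 4) * l ≤ (n + 4) * (7 / 6 * b) :=
        mul_le_mul_of_nonneg_left hl1 (by linarith)
      have h5 : (64 : ℝ) * n * b ≤ n * n * b := by
        apply mul_le_mul_of_nonneg_right _ (by linarith)
        exact mul_le_mul_of_nonneg_right hn' (by linarith)
      have h6 : (64 : ℝ) * b ≤ n * b := mul_le_mul_of_nonneg_right hn' (by linarith)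
      linarith) (c * l) hlogq ((n : ℝ) ^ 3 * b) (by
      rw [card_somes, hT]
      exact le_of_eq (by ring))
  have hmean := mean_nonneg μ hμ (fun ω => (C ω).load (somes n))
  obtain ⟨X, hX⟩ : ∃ X, X = mean μ (fun ω => (C ω).load (somes n)) := ⟨_, rfl⟩
  rw [← hX] at h hmean ⊢
  have h1 : 3 + 13 * (((a : ℝ) + 4) * l) + 2 * (w - 1) * (c * l) ≤
      (66 * a + 2 * (w * c)) * l := by
    have k1 : 0 ≤ (a - 1) * l := mul_nonneg (by linarith) (by linarith)
    have k2 : 0 ≤ (c : ℝ) * l := mul_nonneg hc' (by linarith)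
    nlinarith
  have k0 : 0 ≤ (w : ℝ) * c := mul_nonneg (by linarith) hc'
  have h2 : (66 * a + 2 * ((w : ℝ) * c)) * l ≤ (66 * (a + w * c)) * (7 / 6 * b) := by
    apply mul_le_mul _ hl1 (by linarith) (by positivity)
    linarith
  have h3 : 24 * (3 + 13 * (((a : ℝ) + 4) * l) + 2 * (w - 1) * (c * l)) * X ≤
      24 * ((66 * (a + w * c)) * (7 / 6 * b)) * X := by
    apply mul_le_mul_of_nonneg_right _ hmean
    linarith
  have h4 : b * (n : ℝ) ^ 3 ≤ b * (1900 * (a + w * c) * X) := by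
    have k1 : 24 * ((66 * ((a : ℝ) + w * c)) * (7 / 6 * b)) * X =
        1848 * (b * ((a + w * c) * X)) := by ring
    have k2 : 0 ≤ (b : ℝ) * ((a + w * c) * X) := by positivity
    rw [k1] at h3
    have k3 := h.trans h3
    have k4 : (b : ℝ) * (1900 * (a + w * c) * X) = 1900 * (b * ((a + w * c) * X)) := by ring
    rw [k4]
    linarith
  exact le_of_mul_le_mul_left h4 (by linarith)

/-- exhaustive search -/
theorem minPlus_upper (n w q : ℕ) : ∃ C : Circuit (Option (Fin n)) (Item n) w q,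
    C.shared = 0 ∧ C.load (somes n) ≤ n ^ 3 ∧ ∀ x, C.eval x = shortcut n x := by
  classical
  obtain ⟨F, -, h1, h2⟩ := exists_or_wt (w := w) (q := q) (fun p : Fin n × Fin n × Fin n =>
    Fml.pos (.add (.item (D := Item n) (some p.1) (fun d => (d.2 p.2.2 : ℝ) - d.1 p.2.1))
      (.item (D := Item n) none (fun B => -(B p.2.1 p.2.2 : ℝ)))))
    (fun x p => (x (some p.1)).1 p.2.1 + x none p.2.1 p.2.2 < (x (some p.1)).2 p.2.2)
    (fun x p => by
      simp only [Fml.eval]
      split_ifs <;> simp)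
    (fun x p => by
      simp only [Fml.eval]
      have e : (0 : ℝ) < (((x (some p.1)).2 p.2.2 : ℕ) : ℝ) - ((x (some p.1)).1 p.2.1 : ℕ) +
          -((x none p.2.1 p.2.2 : ℕ) : ℝ) ↔
          (x (some p.1)).1 p.2.1 + x none p.2.1 p.2.2 < (x (some p.1)).2 p.2.2 := by
        constructor
        · intro h
          have : (((x (some p.1)).1 p.2.1 + x none p.2.1 p.2.2 : ℕ) : ℝ) <
              ((x (some p.1)).2 p.2.2 : ℕ) := by
            push_cast
            linarith
          exact_mod_cast this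
        · intro h
          have : (((x (some p.1)).1 p.2.1 + x none p.2.1 p.2.2 : ℕ) : ℝ) <
              ((x (some p.1)).2 p.2.2 : ℕ) := by exact_mod_cast h
          push_cast at this
          linarith
      rw [← e]
      split_ifs with h
      · simp [h]
      · simp [h])
    (shortcut n) (fun x => by
      unfold shortcut
      rw [decide_eq_true_iff]
      constructor
      · rintro ⟨i, k, j, h⟩
        exact ⟨(i, k, j), h⟩
      · rintro ⟨p, h⟩
        exact ⟨p.1, p.2.1, p.2.2, h⟩)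
  refine ⟨ofFml F, rfl, le_of_eq ?_, fun x => (ofFml_eval F x).trans (h2 x)⟩
  rw [ofFml_load_eq, h1]
  have e1 : ∀ i : Fin n, (some i) ∈ somes n := fun i => by
    rw [somes, mem_map]
    exact ⟨i, mem_univ _, rfl⟩
  have e2 : (none : Option (Fin n)) ∉ somes n := by
    rw [somes, mem_map]
    rintro ⟨i, -, h⟩
    exact absurd h (by simp)
  simp only [Fml.wt, e1, e2, if_true, if_false, sum_const, card_univ, Fintype.card_prod,
    Fintype.card_fin, smul_eq_mul]
  ring

end Pool.Agent.Q225.SP
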