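import Pool.Agent.Q225.SP.Xor
import Pool.Agent.Y638.RF.OuMv

set_option autoImplicit false

/-! # Boolean products `u_iᵀ M v_i`: circuits of real programs -/

namespace Pool.Agent.Q225.SP

open Finset Pool.Agent.Y638.RF
open Pool.Agent.TH697.Form (IsProb)
open Pool.Agent.TH697.Row (ApproximatesOn)
open Pool.Agent.TH697.Form.OuMv (Item ouMv)

theorem ouMv_bound {n a c w : ℕ} (hn : 256 ≤ n) (ha : 1 ≤ a) (han : a ≤ n) (hw : 1 ≤ w)
    {Ω : Type} [Fintype Ω] (μ : Ω → ℝ) (hμ : IsProb μ)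
    (C : Ω → Circuit (Option (Fin n)) (Item n n) w (2 ^ c)) (hC : ∀ ω, (C ω).SizeLE (n ^ a))
    (hF : ApproximatesOn μ (fun ω => (C ω).eval) (fun _ => True) (ouMv n n)) :
    (n : ℝ) ^ 3 ≤ 1300 * (a * Real.logb 2 n + w * c) * mean μ (fun ω => (C ω).load (somes n)) := by
  have hn' : (256 : ℝ) ≤ n := by exact_mod_cast hn
  have ha' : (1 : ℝ) ≤ a := by exact_mod_cast ha
  have han' : (a : ℝ) ≤ n := by exact_mod_cast han
  have hw' : (1 : ℝ) ≤ w := by exact_mod_cast hw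
  obtain ⟨hl1, hl2⟩ := log_small hn'
  obtain ⟨l, hl⟩ : ∃ l : ℝ, l = Real.logb 2 (n : ℝ) := ⟨_, rfl⟩
  rw [← hl] at hl1 hl2 ⊢
  have hM : 4 * n ^ 2 * (2 * n ^ a + 1) + 2 + n ^ a ≤ n ^ (a + 3) := by
    have h1 : 1 ≤ n ^ a := Nat.one_le_pow _ _ (by omega)
    have h2 : 4 * n ^ 2 * (2 * n ^ a + 1) ≤ 4 * n ^ 2 * (3 * n ^ a) :=
      Nat.mul_le_mul_left _ (by omega)
    have h3 : 4 * n ^ 2 * (3 * n ^ a) = 12 * (n ^ 2 * n ^ a) := by ring
    have h4 : n ^ a ≤ n ^ 2 * n ^ a := Nat.le_mul_of_pos_left _ (by positivity)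
    have h5 : n ^ (a + 3) = n * (n ^ 2 * n ^ a) := by ring
    have h6 : 256 * (n ^ 2 * n ^ a) ≤ n * (n ^ 2 * n ^ a) := Nat.mul_le_mul_right _ hn
    rw [h5]
    omega
  have hlogM : Real.logb 2 ((n ^ (a + 3) : ℕ) : ℝ) ≤ ((a : ℝ) + 3) * l := by
    push_cast
    rw [Real.logb_pow, ← hl]
    push_cast
    exact le_rfl
  have hlogq : Real.logb 2 ((2 ^ c : ℕ) : ℝ) ≤ c := by
    push_cast
    rw [Real.logb_pow, Real.logb_self_eq_one (by norm_num), mul_one]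
  have hT : (Fintype.card (Fin n × Fin n) : ℝ) = (n : ℝ) ^ 2 := by
    rw [Fintype.card_prod, Fintype.card_fin]
    push_cast
    ring
  have h := circuit_bound μ hμ (n ^ a) C hC (fun _ => True) (ouMv n n) hF
    (Nat.one_le_two_pow) hw (n ^ 2) (n ^ (a + 3)) hM (somes n) (T := Fin n × Fin n) (by
      intro b hb
      rw [somes, mem_map] at hb
      obtain ⟨i, -, rfl⟩ := hb
      exact OuMv.asks i) (((a : ℝ) + 3) * l) hlogM (by
      rw [hT]
      -- `25 (a + 3) l ≤ n²`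
      have h1 : 25 * (((a : ℝ) + 3) * l) ≤ 25 * ((n + 3) * l) := by
        have : ((a : ℝ) + 3) * l ≤ (n + 3) * l :=
          mul_le_mul_of_nonneg_right (by linarith) (by linarith)
        linarith
      have h2 : (n + 3) * (26 * l) ≤ (n + 3) * n := mul_le_mul_of_nonneg_left hl2 (by linarith)
      nlinarith) c hlogq ((n : ℝ) ^ 3) (by
      rw [card_somes, hT]
      exact le_of_eq (by ring))
  refine h.trans (mul_le_mul_of_nonneg_right ?_ (mean_nonneg μ hμ _))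
  have hc0 : (0 : ℝ) ≤ c := Nat.cast_nonneg c
  have h3 : 8 ≤ a * l := by nlinarith
  have h4 : ((a : ℝ) + 3) * l ≤ 4 * (a * l) := by nlinarith
  have h5 : 2 * ((w : ℝ) - 1) * c ≤ 2 * (w * c) := by nlinarith
  have h6 : 0 ≤ (w : ℝ) * c := by positivity
  linarith

theorem ouMv_upper {n c : ℕ} (hc : 1 ≤ c) :
    ∃ C : Circuit (Option (Fin n)) (Item n n) 2 (2 ^ (c + 1)), C.shared = 0 ∧
      C.load (somes n) ≤ 2 * n ^ 2 * (n / c + 1) ∧ ∀ x, C.eval x = ouMv n n x := by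
  obtain ⟨F, h1, h2⟩ := OuMv.upper (n := n) hc
  refine ⟨ofFml F, rfl, (ofFml_load _ F (by norm_num)).trans ?_, fun x =>
    (ofFml_eval F x).trans (h2 x)⟩
  rw [h1]
  exact le_of_eq (by ring)

end Pool.Agent.Q225.SP
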