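import Pool.Agent.Q225.SP.Lower

set_option autoImplicit false

/-! # A closed form of the bound -/

namespace Pool.Agent.Q225.SP

open Finset Pool.Agent.Y638.RF
open Pool.Agent.TH697.Form (IsProb)
open Pool.Agent.TH697.Row (ApproximatesOn)

variable {ι : Type} {D : ι → Type} [DecidableEq ι] {w q : ℕ}
  {T : Type} [Fintype T] {Ω : Type} [Fintype Ω]

/-- The bound, if the number of bits is not very small. -/
theorem circuit_bound (μ : Ω → ℝ) (hμ : IsProb μ) (s : ℕ) (C : Ω → Circuit ι D w q)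
    (hC : ∀ ω, (C ω).SizeLE s) (P : (∀ i, D i) → Prop) (f : (∀ i, D i) → Bool)
    (hF : ApproximatesOn μ (fun ω => (C ω).eval) P f)
    (hq : 1 ≤ q) (hw : 1 ≤ w) (K M : ℕ) (hM : 4 * K * (2 * s + 1) + 2 + s ≤ M)
    (I : Finset ι) (h : ∀ i ∈ I, Asks T K 0 P f i) (L : ℝ) (hL : Real.logb 2 M ≤ L)
    (hLT : 25 * L ≤ Fintype.card T) (Q : ℝ) (hQ : Real.logb 2 q ≤ Q) (t : ℝ)
    (ht : t ≤ I.card * Fintype.card T) :
    t ≤ 24 * (3 + 13 * L + 2 * (w - 1) * Q) * mean μ (fun ω => (C ω).load I) := by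
  have h1 := circuit_lower μ hμ s C hC P f hF hq hw K M hM 0 I h
  have h2 : 0 ≤ mean μ (fun ω => (C ω).load I) := mean_nonneg μ hμ _
  have hw1 : (0 : ℝ) ≤ (w : ℝ) - 1 := by
    have : (1 : ℝ) ≤ w := by exact_mod_cast hw
    linarith
  have h3 : (3 + 13 * Real.logb 2 M + 2 * (w - 1) * Real.logb 2 q) *
      mean μ (fun ω => (C ω).load I) ≤ (3 + 13 * L + 2 * (w - 1) * Q) *
      mean μ (fun ω => (C ω).load I) := by
    apply mul_le_mul_of_nonneg_right _ h2
    have h4 : 2 * ((w : ℝ) - 1) * Real.logb 2 q ≤ 2 * (w - 1) * Q :=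
      mul_le_mul_of_nonneg_left hQ (by linarith)
    linarith
  have h5 : (I.card : ℝ) * (Fintype.card T / 24) ≤
      I.card * ((49 / 600 - 0) * Fintype.card T - Real.logb 2 M) := by
    apply mul_le_mul_of_nonneg_left _ (Nat.cast_nonneg _)
    linarith
  linarith

end Pool.Agent.Q225.SP
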