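import Pool.Agent.Y638.RF.Tri
import Pool.Agent.Q225.SP.Bound

set_option autoImplicit false

/-! # Triangles: circuits of real programs -/

namespace Pool.Agent.Q225.SP

open Finset Pool.Agent.Y638.RF
open Pool.Agent.TH697.Form (IsProb)
open Pool.Agent.TH697.Row (ApproximatesOn)
open Pool.Agent.TH457.Ary.Tri (Edge Simple triangle)
open Pool.Agent.TH457.Ary.Sat (exists_k)

theorem tri_bound {m a c w : ℕ} (hm : 1000 ≤ m) (ha : 1 ≤ a) (ham : 500 * a ≤ m) (hw : 1 ≤ w)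
    {Ω : Type} [Fintype Ω] (μ : Ω → ℝ) (hμ : IsProb μ)
    (C : Ω → Circuit (Fin m) (fun _ => Edge (2 * m)) w (m ^ c)) (hC : ∀ ω, (C ω).SizeLE (m ^ a))
    (hF : ApproximatesOn μ (fun ω => (C ω).eval) Simple triangle) :
    (m : ℝ) ^ 2 ≤ 6400 * (a + w * c) * mean μ (fun ω => (C ω).load univ) := by
  have hm' : (1000 : ℝ) ≤ m := by exact_mod_cast hm
  have ha' : (1 : ℝ) ≤ a := by exact_mod_cast ha
  have ham' : 500 * (a : ℝ) ≤ m := by exact_mod_cast ham
  have hw' : (1 : ℝ) ≤ w := by exact_mod_cast hw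
  have hc' : (0 : ℝ) ≤ c := Nat.cast_nonneg c
  obtain ⟨k, hk, hk1, hk2⟩ := exists_k (m := m) (by omega)
  have hk' : (4 : ℝ) ≤ k := by exact_mod_cast hk
  have hl1 := Tri.logb_m hk (by omega) hk2
  have hT := Pool.Agent.TH457.Ary.Tri.card_T (m := m) (k := k) (by omega) hk1
  obtain ⟨l, hl⟩ : ∃ l : ℝ, l = Real.logb 2 (m : ℝ) := ⟨_, rfl⟩
  rw [← hl] at hl1
  have hl2 : 9 ≤ l := by
    rw [hl]
    have h1 : (2 : ℝ) ^ 9 ≤ m := by linarith
    have h2 := Real.logb_le_logb_of_le (by norm_num : (1 : ℝ) < 2) (by positivity) h1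
    rw [Real.logb_pow, Real.logb_self_eq_one (by norm_num), mul_one] at h2
    norm_num at h2
    exact h2
  have hM : 4 * (4 * m ^ 2) * (2 * m ^ a + 1) + 2 + m ^ a ≤ m ^ (a + 3) := by
    have h1 : 1 ≤ m ^ a := Nat.one_le_pow _ _ (by omega)
    have h2 : 4 * (4 * m ^ 2) * (2 * m ^ a + 1) ≤ 4 * (4 * m ^ 2) * (3 * m ^ a) :=
      Nat.mul_le_mul_left _ (by omega)
    have h3 : 4 * (4 * m ^ 2) * (3 * m ^ a) = 48 * (m ^ 2 * m ^ a) := by ring
    have h4 : m ^ a ≤ m ^ 2 * m ^ a := Nat.le_mul_of_pos_left _ (by positivity)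
    have h5 : m ^ (a + 3) = m * (m ^ 2 * m ^ a) := by ring
    have h6 : 1000 * (m ^ 2 * m ^ a) ≤ m * (m ^ 2 * m ^ a) := Nat.mul_le_mul_right _ hm
    rw [h5]
    omega
  have hlogM : Real.logb 2 ((m ^ (a + 3) : ℕ) : ℝ) ≤ ((a : ℝ) + 3) * l := by
    push_cast
    rw [Real.logb_pow, ← hl]
    push_cast
    exact le_rfl
  have hlogq : Real.logb 2 ((m ^ c : ℕ) : ℝ) ≤ c * l := by
    push_cast
    rw [Real.logb_pow, ← hl]
  have h := circuit_bound (D := fun _ : Fin m => Edge (2 * m)) μ hμ (m ^ a) C hC Simple triangle hF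
    (Nat.one_le_pow _ _ (by omega)) hw (4 * m ^ 2) (m ^ (a + 3)) hM univ
    (T := Fin (Pool.Agent.TH457.Ary.Tri.M m k) × Fin k) (fun p _ => Tri.asks (by omega) hk1 p)
    (((a : ℝ) + 3) * l) hlogM (by
      refine le_trans ?_ hT
      -- `25 (a + 3) l ≤ m k / 2`
      have h1 : ((a : ℝ) + 3) * l ≤ (4 * a) * (5 / 2 * k) :=
        mul_le_mul (by linarith) hl1 (by linarith) (by linarith)
      have h2 : 500 * (a : ℝ) * k ≤ m * k := mul_le_mul_of_nonneg_right ham' (by linarith)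
      linarith) (c * l) hlogq ((m : ℝ) * (m * k / 2)) (by
      rw [card_univ (α := Fin m), Fintype.card_fin]
      exact mul_le_mul_of_nonneg_left hT (Nat.cast_nonneg _))
  have hmean := mean_nonneg μ hμ (fun ω => (C ω).load univ)
  obtain ⟨X, hX⟩ : ∃ X, X = mean μ (fun ω => (C ω).load univ) := ⟨_, rfl⟩
  rw [← hX] at h hmean ⊢
  have h1 : 3 + 13 * (((a : ℝ) + 3) * l) + 2 * (w - 1) * (c * l) ≤
      (53 * a + 2 * (w * c)) * l := by
    have k1 : 0 ≤ (a - 1) * l := mul_nonneg (by linarith) (by linarith)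
    have k2 : 0 ≤ (c : ℝ) * l := mul_nonneg hc' (by linarith)
    nlinarith
  have k0 : 0 ≤ (w : ℝ) * c := mul_nonneg (by linarith) hc'
  have h2 : (53 * a + 2 * ((w : ℝ) * c)) * l ≤ (53 * (a + w * c)) * (5 / 2 * k) := by
    apply mul_le_mul _ hl1 (by linarith) (by positivity)
    linarith
  have h3 : 24 * (3 + 13 * (((a : ℝ) + 3) * l) + 2 * (w - 1) * (c * l)) * X ≤
      24 * ((53 * (a + w * c)) * (5 / 2 * k)) * X := by
    apply mul_le_mul_of_nonneg_right _ hmean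
    linarith
  have h4 : k * (m : ℝ) ^ 2 ≤ k * (6400 * (a + w * c) * X) := by
    have k1 : 24 * ((53 * ((a : ℝ) + w * c)) * (5 / 2 * k)) * X =
        3180 * (k * ((a + w * c) * X)) := by ring
    have k2 : 0 ≤ (k : ℝ) * ((a + w * c) * X) := by positivity
    rw [k1] at h3
    have k3 := h.trans h3
    have k4 : (k : ℝ) * (6400 * (a + w * c) * X) = 6400 * (k * ((a + w * c) * X)) := by ring
    rw [k4]
    linarith
  exact le_of_mul_le_mul_left h4 (by linarith)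

end Pool.Agent.Q225.SP
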