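import Pool.Agent.Y638.RF.ZeroSum
import Pool.Agent.Q225.SP.Xor

set_option autoImplicit false

/-! # 3SUM: circuits of real programs -/

namespace Pool.Agent.Q225.SP

open Finset Pool.Agent.Y638.RF
open Pool.Agent.TH697.Form (IsProb)
open Pool.Agent.TH697.Row (ApproximatesOn)
open Pool.Agent.TH697.Form.ThreeSum (Item Valid)
open Pool.Agent.TH457.Ary.ZeroSum (zeroSum)

theorem zeroSum_bound {n a c w : ℕ} (hn : 1000 ≤ n) (ha : 1 ≤ a) (han : 1000 * a ≤ n) (hw : 1 ≤ w)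
    {Ω : Type} [Fintype Ω] (μ : Ω → ℝ) (hμ : IsProb μ)
    (C : Ω → Circuit (Option (Fin n)) (Item n n) w ((2 * n) ^ c))
    (hC : ∀ ω, (C ω).SizeLE (n ^ a))
    (hF : ApproximatesOn μ (fun ω => (C ω).eval) (Valid n n) (zeroSum n)) :
    (n : ℝ) ^ 2 ≤ 10000 * (a + w * c) * mean μ (fun ω => (C ω).load (somes n)) := by
  have hn' : (1000 : ℝ) ≤ n := by exact_mod_cast hn
  have ha' : (1 : ℝ) ≤ a := by exact_mod_cast ha
  have han' : 1000 * (a : ℝ) ≤ n := by exact_mod_cast han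
  have hw' : (1 : ℝ) ≤ w := by exact_mod_cast hw
  have hc' : (0 : ℝ) ≤ c := Nat.cast_nonneg c
  obtain ⟨b, hb, hg8, hb2⟩ := Pool.Agent.TH457.Ary.ThreeSum.params (n := n) (by omega)
  have hlogn := Pool.Agent.TH457.Ary.ThreeSum.logb_n (n := n) (by omega)
  have hlogq := Pool.Agent.TH457.Ary.ThreeSum.logb_q (c := c) (n := n) (by omega) hg8
  have hT := Pool.Agent.TH457.Ary.ThreeSum.card_T (n := n) (by omega) hb2
  have hg8' : (8 : ℝ) ≤ Nat.log 2 n := by exact_mod_cast hg8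
  obtain ⟨g, hg⟩ : ∃ g : ℝ, g = Nat.log 2 n := ⟨_, rfl⟩
  rw [← hg] at hg8' hlogn hlogq hT
  have hM : 4 * n ^ 2 * (2 * n ^ a + 1) + 2 + n ^ a ≤ n ^ (a + 3) := by
    have h1 : 1 ≤ n ^ a := Nat.one_le_pow _ _ (by omega)
    have h2 : 4 * n ^ 2 * (2 * n ^ a + 1) ≤ 4 * n ^ 2 * (3 * n ^ a) :=
      Nat.mul_le_mul_left _ (by omega)
    have h3 : 4 * n ^ 2 * (3 * n ^ a) = 12 * (n ^ 2 * n ^ a) := by ring
    have h4 : n ^ a ≤ n ^ 2 * n ^ a := Nat.le_mul_of_pos_left _ (by positivity)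
    have h5 : n ^ (a + 3) = n * (n ^ 2 * n ^ a) := by ring
    have h6 : 256 * (n ^ 2 * n ^ a) ≤ n * (n ^ 2 * n ^ a) := Nat.mul_le_mul_right _ (by omega)
    rw [h5]
    omega
  have hl : Real.logb 2 (n : ℝ) ≤ 9 / 8 * g := by linarith
  have hlogM : Real.logb 2 ((n ^ (a + 3) : ℕ) : ℝ) ≤ ((a : ℝ) + 3) * (9 / 8 * g) := by
    push_cast
    rw [Real.logb_pow]
    push_cast
    exact mul_le_mul_of_nonneg_left hl (by linarith)
  have h := circuit_bound μ hμ (n ^ a) C hC (Valid n n) (zeroSum n) hF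
    (Nat.one_le_pow _ _ (by omega)) hw (n ^ 2) (n ^ (a + 3)) hM (somes n)
    (T := Fin (n / 2) × Fin b) (by
      intro x hx
      rw [somes, mem_map] at hx
      obtain ⟨i, -, rfl⟩ := hx
      exact ZeroSum.asks hb (by omega) i) (((a : ℝ) + 3) * (9 / 8 * g)) hlogM (by
      refine le_trans ?_ hT
      -- `25 (a + 3) (9 / 8) g ≤ n g / 7`
      have h1 : (a : ℝ) + 3 ≤ 4 * a := by linarith
      have h2 : ((a : ℝ) + 3) * (9 / 8 * g) ≤ 4 * a * (9 / 8 * g) :=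
        mul_le_mul_of_nonneg_right h1 (by linarith)
      have h3 : 1000 * (a : ℝ) * g ≤ n * g := mul_le_mul_of_nonneg_right han' (by linarith)
      linarith) (4 / 3 * c * g) hlogq ((n : ℝ) * (n * g / 7)) (by
      rw [card_somes]
      exact mul_le_mul_of_nonneg_left hT (Nat.cast_nonneg _))
  have hmean := mean_nonneg μ hμ (fun ω => (C ω).load (somes n))
  obtain ⟨X, hX⟩ : ∃ X, X = mean μ (fun ω => (C ω).load (somes n)) := ⟨_, rfl⟩
  rw [← hX] at h hmean ⊢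
  have h1 : 3 + 13 * (((a : ℝ) + 3) * (9 / 8 * g)) + 2 * (w - 1) * (4 / 3 * c * g) ≤
      (59 * (a + w * c)) * g := by
    have k1 : 0 ≤ (a - 1) * g := mul_nonneg (by linarith) (by linarith)
    have k2 : 0 ≤ (c : ℝ) * g := mul_nonneg hc' (by linarith)
    have k3 : 0 ≤ (w : ℝ) * (c * g) := mul_nonneg (by linarith) k2
    nlinarith
  have h2 : g * (n : ℝ) ^ 2 ≤ g * (10000 * (a + w * c) * X) := by
    have k0 : 0 ≤ g * ((a + w * c) * X) := by
      apply mul_nonneg (by linarith)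
      apply mul_nonneg _ hmean
      positivity
    have k1 : 24 * (3 + 13 * (((a : ℝ) + 3) * (9 / 8 * g)) + 2 * (w - 1) * (4 / 3 * c * g)) * X ≤
        24 * ((59 * (a + w * c)) * g) * X := by
      apply mul_le_mul_of_nonneg_right _ hmean
      linarith
    have k2 : 24 * ((59 * ((a : ℝ) + w * c)) * g) * X = 24 * 59 * (g * ((a + w * c) * X)) := by
      ring
    have k3 : g * (10000 * ((a : ℝ) + w * c) * X) = 10000 * (g * ((a + w * c) * X)) := by ring
    rw [k3]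
    rw [k2] at k1
    linarith
  exact le_of_mul_le_mul_left h2 (by linarith)

end Pool.Agent.Q225.SP
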