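import Pool.Agent.Q225.SP.Defs

set_option autoImplicit false

/-! # Few subfunctions -/

namespace Pool.Agent.Q225.SP

open Finset Pool.Agent.Y638.RF

variable {ι : Type} {D : ι → Type} [DecidableEq ι] {w q : ℕ}

/-- the readings which depend on item `i` -/
def Gates.ind (i : ι) {k : ℕ} (P : Gates ι D w q k) : ι ⊕ Fin k → ℕ :=
  Sum.elim (fun i' => if i' = i then 1 else 0) (fun l => if P.deps i l = true then 1 else 0)

theorem Gates.sum_ind (I : Finset ι) {k : ℕ} (P : Gates ι D w q k) (a : ι ⊕ Fin k) :
    ∑ i ∈ I, P.ind i a = P.load I a := by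
  rcases a with i' | l
  · simp only [Gates.ind, Gates.load, Sum.elim_inl]
    rw [Finset.sum_ite_eq]
  · simp only [Gates.ind, Gates.load, Sum.elim_inr]
    rw [card_filter]

/-- the readings of all gates which depend on item `i` -/
def Gates.tot (i : ι) : {k : ℕ} → Gates ι D w q k → ℕ
  | _, .nil => 0
  | _, .snoc P B _ => P.tot i + B.wt (P.ind i)

theorem Gates.sum_tot (I : Finset ι) : ∀ {k : ℕ} (P : Gates ι D w q k),
    ∑ i ∈ I, P.tot i = P.total I
  | _, .nil => by simp [Gates.tot, Gates.total]
  | _, .snoc P B _ => by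
    simp only [Gates.tot, Gates.total, sum_add_distrib]
    rw [Gates.sum_tot I P, BP.wt_sum I (fun i => P.ind i) B]
    congr 2
    funext a
    exact P.sum_ind I a

theorem Gates.deps_last (i : ι) {k n : ℕ} (P : Gates ι D w q k)
    (B : BP (ι ⊕ Fin k) (Ext D k) w q n) (v : Fin (n + 2)) :
    (P.snoc B v).deps i (Fin.last k) = decide (0 < B.wt (P.ind i)) := by
  simp only [Gates.deps, Fin.snoc_last]
  rfl

theorem Gates.deps_castSucc (i : ι) {k n : ℕ} (P : Gates ι D w q k)
    (B : BP (ι ⊕ Fin k) (Ext D k) w q n) (v : Fin (n + 2)) (l : Fin k) :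
    (P.snoc B v).deps i l.castSucc = P.deps i l := by
  simp only [Gates.deps, Fin.snoc_castSucc]

/-- what is not read -/
theorem Gates.join_update (i : ι) {k : ℕ} (P : Gates ι D w q k)
    (hP : ∀ l, P.deps i l = false → ∀ (z : ∀ i, D i) (d : D i),
      P.eval (Function.update z i d) l = P.eval z l) (z : ∀ i, D i) (d : D i) (a : ι ⊕ Fin k)
    (ha : P.ind i a = 0) :
    join (Function.update z i d) (P.eval (Function.update z i d)) a = join z (P.eval z) a := by
  rcases a with i' | l
  · simp only [Gates.ind, Sum.elim_inl] at ha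
    have h : i' ≠ i := by
      intro h
      rw [if_pos h] at ha
      exact one_ne_zero ha
    simp only [join]
    rw [Function.update_of_ne h]
  · simp only [Gates.ind, Sum.elim_inr] at ha
    have h : P.deps i l = false := by
      by_contra h
      rw [Bool.not_eq_false] at h
      rw [if_pos h] at ha
      exact one_ne_zero ha
    simp only [join]
    exact hP l h z d

theorem Gates.eval_update (i : ι) : ∀ {k : ℕ} (P : Gates ι D w q k) (l : Fin k),
    P.deps i l = false → ∀ (z : ∀ i, D i) (d : D i),
      P.eval (Function.update z i d) l = P.eval z l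
  | _, .nil, l => l.elim0
  | _, @Gates.snoc _ _ _ _ k P n B v, l => by
    refine Fin.lastCases ?_ (fun u => ?_) l
    · intro h z d
      rw [Gates.deps_last, decide_eq_false_iff_not, not_lt, Nat.le_zero] at h
      simp only [Gates.eval, Fin.snoc_last]
      exact BP.val_congr B h (fun a ha => P.join_update i (Gates.eval_update i P) z d a ha) v
    · intro h z d
      rw [Gates.deps_castSucc] at h
      simp only [Gates.eval, Fin.snoc_castSucc]
      exact Gates.eval_update i P u h z d

/-! ### One item instead of all the readings which depend on item `i` -/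

/-- the other input: everything that depends on item `i` is a function of `v : Y` -/
abbrev Oth (Y : Type) {A : Type} (D : A → Type) : Option A → Type
  | none => Y
  | some a => D a

/-- the relabeling -/
def glue {Y A : Type} {D : A → Type} (U : A → ℕ) (f : Y → ∀ a, D a) (a : A) :
    Σ b : Option A, (Oth Y D b → D a) :=
  if U a = 0 then ⟨some a, fun e => e⟩ else ⟨none, fun v => f v a⟩

theorem pull_glue {Y A : Type} {D : A → Type} (U : A → ℕ) (f : Y → ∀ a, D a)
    (x : ∀ b, Oth Y D b) (a : A) :
    pull (glue U f) x a = if U a = 0 then x (some a) else f (x none) a := by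
  have e : pull (glue U f) x a = (glue U f a).2 (x (glue U f a).1) := rfl
  rw [e]
  by_cases h : U a = 0
  · have e1 : glue U f a = ⟨some a, fun e => e⟩ := if_pos h
    rw [e1, if_pos h]
  · have e1 : glue U f a = ⟨none, fun v => f v a⟩ := if_neg h
    rw [e1, if_neg h]

theorem glue_none {Y A : Type} {D : A → Type} (U : A → ℕ) (f : Y → ∀ a, D a) (a : A)
    (h : (glue U f a).1 = none) : 1 ≤ U a := by
  unfold glue at h
  by_cases h0 : U a = 0
  · rw [if_pos h0] at h
    exact absurd h (by simp)
  · omega

open Classical in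
/-- The functions of a branching program, if what it reads is a function of `v : Y` (from a given
family), or does not depend on `v`. -/
theorem bp_family {Y A : Type} [Fintype Y] {D : A → Type} (s M E : ℕ) (hq : 1 ≤ q)
    (hM : 4 * Fintype.card Y * (2 * s + 1) + 2 + s ≤ M)
    (hE : E = 2 * M ^ 5 * q ^ (w - 1)) {n : ℕ} (B : BP A D w q n) (hs : B.size ≤ s)
    (v : Fin (n + 2)) (U : A → ℕ) (f : Y → ∀ a, D a) :
    ∃ S : Finset (Y → Bool), S.card ≤ M * (2 * M ^ 2 * E ^ 2) ^ B.wt U ∧
      ∀ X : Y → ∀ a, D a, (∀ u a, U a ≠ 0 → X u a = f u a) →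
        (∀ u u' a, U a = 0 → X u a = X u' a) → (fun u => B.val (X u) v) ∈ S := by
  have hM1 : 1 ≤ M := by omega
  have hE1 : 1 ≤ E := (Fml.base_bound (M := M) (B := E) (q := q) (w := w) (by omega) hq hE).2.2
  have hpos : 1 ≤ 2 * M ^ 2 * E ^ 2 := by
    have h1 : 1 ≤ M ^ 2 := Nat.one_le_pow _ _ hM1
    have h2 : 1 ≤ E ^ 2 := Nat.one_le_pow _ _ hE1
    nlinarith
  rcases isEmpty_or_nonempty Y with hY | ⟨⟨u0⟩⟩
  · refine ⟨univ, ?_, fun _ _ _ => mem_univ _⟩
    rw [card_univ, Fintype.card_fun, Fintype.card_eq_zero (α := Y), pow_zero]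
    exact Nat.one_le_iff_ne_zero.2 (Nat.mul_ne_zero (by omega)
      (pow_ne_zero _ (by omega)))
  obtain ⟨S, h1, h2⟩ := BP.subfunctions (none : Option A) (fun u : Y => (u : Oth Y D none)) s M E
    hq hM hE (B.relabel (glue U f)) ((BP.size_relabel _ B).trans_le hs) v
  refine ⟨S, h1.trans (Nat.mul_le_mul_left _ (Nat.pow_le_pow_right hpos
    (BP.reads_relabel (glue U f) none (fun a ha => glue_none U f a ha) B))), ?_⟩
  intro X hX1 hX2
  have h3 := h2 (fun b => match b with
    | none => u0
    | some a => X u0 a)
  convert h3 using 1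
  funext u
  rw [BP.val_relabel]
  congr 1
  funext a
  rw [pull_glue]
  split_ifs with ha
  · rw [Function.update_of_ne (by simp)]
    exact hX2 _ _ _ ha
  · rw [Function.update_self]
    exact hX1 _ _ ha

open Classical in
/-- The functions of item `i` of all the gates which depend on item `i`. -/
theorem Gates.families {Y : Type} [Fintype Y] (i : ι) (y : Y → D i) (z0 : ∀ i, D i) (s M E : ℕ)
    (hq : 1 ≤ q) (hM : 4 * Fintype.card Y * (2 * s + 1) + 2 + s ≤ M)
    (hE : E = 2 * M ^ 5 * q ^ (w - 1)) : ∀ {k : ℕ} (P : Gates ι D w q k), P.SizeLE s →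
    ∃ 𝒮 : Finset (Fin k → Y → Bool), 𝒮.card ≤ (2 * M ^ 3 * E ^ 2) ^ P.tot i ∧
      ∀ z : (∀ i, D i), ∃ t ∈ 𝒮, ∀ l, P.deps i l = true → ∀ u,
        P.eval (Function.update z i (y u)) l = t l u
  | _, .nil, _ => ⟨{fun l => l.elim0}, by simp [Gates.tot], fun z =>
      ⟨_, mem_singleton_self _, fun l => l.elim0⟩⟩
  | _, @Gates.snoc _ _ _ _ k P n B v, hs => by
    have hM1 : 1 ≤ M := by omega
    obtain ⟨hs1, hs2⟩ := hs
    obtain ⟨𝒮, h𝒮1, h𝒮2⟩ := Gates.families i y z0 s M E hq hM hE P hs1
    -- the gate, for given functions of the earlier gates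
    choose S hS1 hS2 using fun t : Fin k → Y → Bool => bp_family s M E hq hM hE B hs2 v (P.ind i)
      (fun u => join (Function.update z0 i (y u)) (fun l => t l u))
    by_cases hd : 0 < B.wt (P.ind i)
    · refine ⟨𝒮.biUnion fun t => (S t).image fun g => Fin.snoc (α := fun _ => Y → Bool) t g,
        ?_, fun z => ?_⟩
      · refine card_biUnion_le.trans ?_
        calc ∑ t ∈ 𝒮, ((S t).image fun g => Fin.snoc (α := fun _ => Y → Bool) t g).card
            ≤ ∑ t ∈ 𝒮, (2 * M ^ 3 * E ^ 2) ^ B.wt (P.ind i) := by
              refine sum_le_sum fun t _ => card_image_le.trans ((hS1 t).trans ?_)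
              calc M * (2 * M ^ 2 * E ^ 2) ^ B.wt (P.ind i)
                  ≤ M ^ B.wt (P.ind i) * (2 * M ^ 2 * E ^ 2) ^ B.wt (P.ind i) :=
                    Nat.mul_le_mul_right _ (Nat.le_self_pow (by omega) _)
                _ = (2 * M ^ 3 * E ^ 2) ^ B.wt (P.ind i) := by
                    rw [← mul_pow]
                    congr 1
                    ring
          _ = 𝒮.card * (2 * M ^ 3 * E ^ 2) ^ B.wt (P.ind i) := by rw [sum_const, smul_eq_mul]
          _ ≤ (2 * M ^ 3 * E ^ 2) ^ P.tot i * (2 * M ^ 3 * E ^ 2) ^ B.wt (P.ind i) :=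
              Nat.mul_le_mul_right _ h𝒮1
          _ = _ := by rw [← pow_add]; rfl
      · obtain ⟨t, ht, htz⟩ := h𝒮2 z
        refine ⟨Fin.snoc (α := fun _ => Y → Bool) t (fun u => B.val (join (Function.update z i
          (y u)) (P.eval (Function.update z i (y u)))) v), ?_, ?_⟩
        · rw [mem_biUnion]
          refine ⟨t, ht, mem_image.2 ⟨_, ?_, rfl⟩⟩
          refine hS2 t _ ?_ ?_
          · rintro u (i' | l) ha
            · have hi : i' = i := by
                by_contra h
                exact ha (by simp [Gates.ind, h])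
              subst hi
              simp only [join, Function.update_self]
              try rfl
            · have hl : P.deps i l = true := by
                by_contra h
                exact ha (by simp [Gates.ind, h])
              exact htz l hl u
          · intro u u' a ha
            rw [P.join_update i (fun l hl => P.eval_update i l hl) z (y u) a ha,
              P.join_update i (fun l hl => P.eval_update i l hl) z (y u') a ha]
        · intro l
          refine Fin.lastCases ?_ (fun l' => ?_) l
          · intro _ u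
            simp only [Gates.eval, Fin.snoc_last]
          · intro hl u
            rw [Gates.deps_castSucc] at hl
            simp only [Gates.eval, Fin.snoc_castSucc]
            exact htz l' hl u
    · refine ⟨𝒮.image fun t => Fin.snoc (α := fun _ => Y → Bool) t (fun _ => false),
        card_image_le.trans (h𝒮1.trans (le_of_eq ?_)), fun z => ?_⟩
      · have h0 : B.wt (P.ind i) = 0 := by omega
        simp only [Gates.tot, h0, add_zero]
      · obtain ⟨t, ht, htz⟩ := h𝒮2 z
        refine ⟨_, mem_image_of_mem _ ht, fun l => ?_⟩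
        refine Fin.lastCases ?_ (fun l' => ?_) l
        · intro hl
          rw [Gates.deps_last, decide_eq_true_eq] at hl
          exact absurd hl hd
        · intro hl u
          rw [Gates.deps_castSucc] at hl
          simp only [Gates.eval, Fin.snoc_castSucc]
          exact htz l' hl u

/-- the readings which depend on item `i` -/
def Circuit.tot (i : ι) (C : Circuit ι D w q) : ℕ := C.gates.tot i + C.output.wt (C.gates.ind i)

theorem Circuit.sum_tot (I : Finset ι) (C : Circuit ι D w q) : ∑ i ∈ I, C.tot i = C.load I := by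
  unfold Circuit.tot Circuit.load
  rw [sum_add_distrib, Gates.sum_tot, BP.wt_sum I (fun i => C.gates.ind i)]
  congr 2
  funext a
  exact C.gates.sum_ind I a

open Classical in
/-- Few subfunctions. -/
theorem Circuit.subfunctions {Y : Type} [Fintype Y] (i : ι) (y : Y → D i) (s M E : ℕ)
    (hq : 1 ≤ q) (hM : 4 * Fintype.card Y * (2 * s + 1) + 2 + s ≤ M)
    (hE : E = 2 * M ^ 5 * q ^ (w - 1)) (C : Circuit ι D w q) (hs : C.SizeLE s) :
    ∃ S : Finset (Y → Bool), S.card ≤ M * (2 * M ^ 3 * E ^ 2) ^ C.tot i ∧
      ∀ z : (∀ i, D i), (fun u => C.eval (Function.update z i (y u))) ∈ S := by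
  have hM1 : 1 ≤ M := by omega
  rcases isEmpty_or_nonempty (∀ i, D i) with hz | ⟨⟨z0⟩⟩
  · exact ⟨∅, by simp, fun z => (hz.false z).elim⟩
  obtain ⟨𝒮, h𝒮1, h𝒮2⟩ := C.gates.families i y z0 s M E hq hM hE hs.1
  choose S hS1 hS2 using fun t : Fin C.shared → Y → Bool => bp_family s M E hq hM hE C.output
    hs.2 C.start (C.gates.ind i) (fun u => join (Function.update z0 i (y u)) (fun l => t l u))
  refine ⟨𝒮.biUnion S, ?_, fun z => ?_⟩
  · refine card_biUnion_le.trans ?_
    calc ∑ t ∈ 𝒮, (S t).card
        ≤ ∑ t ∈ 𝒮, M * (2 * M ^ 3 * E ^ 2) ^ C.output.wt (C.gates.ind i) := by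
          refine sum_le_sum fun t _ => (hS1 t).trans (Nat.mul_le_mul_left _ ?_)
          apply Nat.pow_le_pow_left
          apply Nat.mul_le_mul_right
          apply Nat.mul_le_mul_left
          exact Nat.pow_le_pow_right hM1 (by norm_num)
      _ = 𝒮.card * (M * (2 * M ^ 3 * E ^ 2) ^ C.output.wt (C.gates.ind i)) := by
          rw [sum_const, smul_eq_mul]
      _ ≤ (2 * M ^ 3 * E ^ 2) ^ C.gates.tot i *
            (M * (2 * M ^ 3 * E ^ 2) ^ C.output.wt (C.gates.ind i)) :=
          Nat.mul_le_mul_right _ h𝒮1
      _ = _ := by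
          unfold Circuit.tot
          rw [pow_add]
          ring
  · obtain ⟨t, ht, htz⟩ := h𝒮2 z
    rw [mem_biUnion]
    refine ⟨t, ht, hS2 t _ ?_ ?_⟩
    · rintro u (i' | l) ha
      · have hi : i' = i := by
          by_contra h
          exact ha (by simp [Gates.ind, h])
        subst hi
        simp only [join, Function.update_self]
        try rfl
      · have hl : C.gates.deps i l = true := by
          by_contra h
          exact ha (by simp [Gates.ind, h])
        exact htz l hl u
    · intro u u' a ha
      rw [C.gates.join_update i (fun l hl => C.gates.eval_update i l hl) z (y u) a ha,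
        C.gates.join_update i (fun l hl => C.gates.eval_update i l hl) z (y u') a ha]

end Pool.Agent.Q225.SP
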