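import Pool.Agent.Q225.SP.Relabel

set_option autoImplicit false

/-! # Circuits whose gates are branching programs which test real formulas -/

namespace Pool.Agent.Q225.SP

open Finset Pool.Agent.Y638.RF

/-- What gate number `k` may read: the items of the input, and the bits of the `k` earlier gates. -/
abbrev Ext {ι : Type} (D : ι → Type) (k : ℕ) : ι ⊕ Fin k → Type := Sum.elim D (fun _ => Bool)

/-- The items and the bits together. -/
def join {ι : Type} {D : ι → Type} {k : ℕ} (x : ∀ i, D i) (v : Fin k → Bool) : ∀ a, Ext D k a
  | .inl i => x i
  | .inr l => v l

/-- A sequence of `k` gates. Every gate is a branching program (with a start node) whose nodes test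
real formulas of the items and of the bits of the earlier gates. -/
inductive Gates (ι : Type) (D : ι → Type) (w q : ℕ) : ℕ → Type
  | nil : Gates ι D w q 0
  | snoc : {k : ℕ} → Gates ι D w q k → {n : ℕ} → BP (ι ⊕ Fin k) (Ext D k) w q n →
      Fin (n + 2) → Gates ι D w q (k + 1)

variable {ι : Type} {D : ι → Type} {w q : ℕ}

namespace Gates

/-- The bits of the gates. -/
noncomputable def eval : {k : ℕ} → Gates ι D w q k → (∀ i, D i) → Fin k → Bool
  | _, nil, _ => Fin.elim0
  | _, snoc P B v, x => Fin.snoc (α := fun _ => Bool) (P.eval x) (B.val (join x (P.eval x)) v)

/-- Every gate has size at most `s`. -/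
def SizeLE (s : ℕ) : {k : ℕ} → Gates ι D w q k → Prop
  | _, nil => True
  | _, snoc P B _ => P.SizeLE s ∧ B.size ≤ s

/-- Does the gate depend on item `i`? (It reads item `i`, or the bit of an earlier gate which depends
on item `i`.) -/
def deps [DecidableEq ι] (i : ι) : {k : ℕ} → Gates ι D w q k → Fin k → Bool
  | _, nil => Fin.elim0
  | _, snoc P B _ => Fin.snoc (α := fun _ => Bool) (P.deps i) (decide (0 < B.wt
      (Sum.elim (fun i' => if i' = i then 1 else 0) (fun l => if P.deps i l then 1 else 0))))

/-- The number of the items in `I` on which something that can be read depends: for item `i` this is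
one (if it is in `I`), for the bit of a gate it is the number of the items in `I` on which the gate
depends. -/
def load [DecidableEq ι] (I : Finset ι) {k : ℕ} (P : Gates ι D w q k) : ι ⊕ Fin k → ℕ :=
  Sum.elim (fun i => if i ∈ I then 1 else 0) (fun l => (I.filter (fun i => P.deps i l = true)).card)

/-- The number of readings of all gates, each of them counted with its load. -/
def total [DecidableEq ι] (I : Finset ι) : {k : ℕ} → Gates ι D w q k → ℕ
  | _, nil => 0
  | _, snoc P B _ => P.total I + B.wt (P.load I)

end Gates

/-- Circuits: a sequence of gates whose bits may be used any number of times, and an output gate. -/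
structure Circuit (ι : Type) (D : ι → Type) (w q : ℕ) : Type where
  /-- the number of the gates whose bits may be used -/
  shared : ℕ
  /-- these gates -/
  gates : Gates ι D w q shared
  /-- the number of the nodes of the output gate -/
  nodes : ℕ
  /-- the output gate -/
  output : BP (ι ⊕ Fin shared) (Ext D shared) w q nodes
  /-- its start node -/
  start : Fin (nodes + 2)

namespace Circuit

/-- The result of the computation. -/
noncomputable def eval (C : Circuit ι D w q) (x : ∀ i, D i) : Bool :=
  C.output.val (join x (C.gates.eval x)) C.start

/-- Every gate, also the output gate, has size at most `s`. There may be any number of gates. -/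
def SizeLE (s : ℕ) (C : Circuit ι D w q) : Prop := C.gates.SizeLE s ∧ C.output.size ≤ s

/-- The total load: the number of readings of all gates, each of them counted with the number of the
items in `I` on which that which is read depends. Readings of items which are not in `I`, and of bits
which do not depend on items in `I`, are free. -/
def load [DecidableEq ι] (I : Finset ι) (C : Circuit ι D w q) : ℕ :=
  C.gates.total I + C.output.wt (C.gates.load I)

end Circuit

/-- The expected value. -/
def mean {Ω : Type} [Fintype Ω] (μ : Ω → ℝ) (a : Ω → ℕ) : ℝ := ∑ ω, μ ω * (a ω : ℝ)

end Pool.Agent.Q225.SP
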