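import Pool.Agent.Q225.SP.ETAsks
import Pool.Agent.Q225.SP.Xor

set_option autoImplicit false

/-! # Exact triangles: circuits of real programs -/

namespace Pool.Agent.Q225.SP

open Finset Pool.Agent.Y638.RF
open Pool.Agent.TH697.Form (IsProb)
open Pool.Agent.TH697.Row (ApproximatesOn)

/-- The bound, if the answers may be wrong for a small fraction of the bits. -/
theorem circuit_bound' {ι : Type} {D : ι → Type} [DecidableEq ι] {w q : ℕ} {T : Type} [Fintype T]
    {Ω : Type} [Fintype Ω] (μ : Ω → ℝ) (hμ : IsProb μ) (s : ℕ) (C : Ω → Circuit ι D w q)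
    (hC : ∀ ω, (C ω).SizeLE s) (P : (∀ i, D i) → Prop) (f : (∀ i, D i) → Bool)
    (hF : ApproximatesOn μ (fun ω => (C ω).eval) P f)
    (hq : 1 ≤ q) (hw : 1 ≤ w) (K M : ℕ) (hM : 4 * K * (2 * s + 1) + 2 + s ≤ M)
    (I : Finset ι) (h : ∀ i ∈ I, Asks T K (1 / 64) P f i) (L : ℝ) (hL : Real.logb 2 M ≤ L)
    (hLT : 42 * L ≤ Fintype.card T) (Q : ℝ) (hQ : Real.logb 2 q ≤ Q) (t : ℝ)
    (ht : t ≤ I.card * Fintype.card T) :
    t ≤ 24 * (3 + 13 * L + 2 * (w - 1) * Q) * mean μ (fun ω => (C ω).load I) := by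
  have h1 := circuit_lower μ hμ s C hC P f hF hq hw K M hM (1 / 64) I h
  have h2 : 0 ≤ mean μ (fun ω => (C ω).load I) := mean_nonneg μ hμ _
  have hw1 : (0 : ℝ) ≤ (w : ℝ) - 1 := by
    have : (1 : ℝ) ≤ w := by exact_mod_cast hw
    linarith
  have h3 : (3 + 13 * Real.logb 2 M + 2 * (w - 1) * Real.logb 2 q) *
      mean μ (fun ω => (C ω).load I) ≤ (3 + 13 * L + 2 * (w - 1) * Q) *
      mean μ (fun ω => (C ω).load I) := by
    apply mul_le_mul_of_nonneg_right _ h2
    have h4 : 2 * ((w : ℝ) - 1) * Real.logb 2 q ≤ 2 * (w - 1) * Q :=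
      mul_le_mul_of_nonneg_left hQ (by linarith)
    linarith
  have h5 : (I.card : ℝ) * (Fintype.card T / 24) ≤
      I.card * ((49 / 600 - 1 / 64) * Fintype.card T - Real.logb 2 M) := by
    apply mul_le_mul_of_nonneg_left _ (Nat.cast_nonneg _)
    linarith
  linarith

open Pool.Agent.TH697.Form.ET (Item InRange zeroTri)

theorem et_bound {n a c w : ℕ} (hn : 8192 ≤ n) (ha : 1 ≤ a) (han : a ≤ n) (hw : 1 ≤ w)
    {Ω : Type} [Fintype Ω] (μ : Ω → ℝ) (hμ : IsProb μ)
    (C : Ω → Circuit (Option (Fin n)) (Item n) w (n ^ c)) (hC : ∀ ω, (C ω).SizeLE (n ^ a))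
    (hF : ApproximatesOn μ (fun ω => (C ω).eval) (InRange n (n ^ 2)) (zeroTri n)) :
    (n : ℝ) ^ 3 ≤ 250000 * (a + w * c) * mean μ (fun ω => (C ω).load (somes n)) := by
  have hn' : (8192 : ℝ) ≤ n := by exact_mod_cast hn
  have ha' : (1 : ℝ) ≤ a := by exact_mod_cast ha
  have han' : (a : ℝ) ≤ n := by exact_mod_cast han
  have hw' : (1 : ℝ) ≤ w := by exact_mod_cast hw
  have hc' : (0 : ℝ) ≤ c := Nat.cast_nonneg c
  -- the parameters
  obtain ⟨b, hb⟩ : ∃ b, b = Nat.log 2 n := ⟨_, rfl⟩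
  have hb13 : 13 ≤ b := by
    have := Nat.log_mono_right (b := 2) hn
    rw [hb]
    rwa [show Nat.log 2 8192 = 13 by decide +kernel] at this
  have hpow : 2 ^ b ≤ n := by
    rw [hb]
    exact Nat.pow_log_le_self 2 (by omega)
  have hpow2 : n < 2 ^ (b + 1) := by
    have := Nat.lt_pow_succ_log_self (b := 2) (by norm_num) n
    rw [hb]
    exact this
  obtain ⟨m, hm⟩ : ∃ m, m = 2 ^ (b - 6) := ⟨_, rfl⟩
  have hm64 : 64 * m = 2 ^ b := by
    rw [hm, show (64 : ℕ) = 2 ^ 6 by norm_num, ← pow_add]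
    congr 1
    omega
  have hmn : m < n := by
    have : 0 < 2 ^ b := by positivity
    omega
  have hn128 : (n : ℝ) ≤ 128 * m := by
    have h1 : n ≤ 128 * m := by
      rw [pow_succ] at hpow2
      omega
    exact_mod_cast h1
  obtain ⟨l, hl⟩ : ∃ l : ℝ, l = Real.logb 2 (n : ℝ) := ⟨_, rfl⟩
  have hb' : (13 : ℝ) ≤ b := by exact_mod_cast hb13
  have hl1 : l ≤ b + 1 := by
    rw [hl]
    have h1 : (n : ℝ) ≤ (2 : ℝ) ^ (b + 1) := by exact_mod_cast hpow2.le
    have h2 := Real.logb_le_logb_of_le (by norm_num : (1 : ℝ) < 2) (by linarith) h1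
    rw [Real.logb_pow, Real.logb_self_eq_one (by norm_num), mul_one] at h2
    push_cast at h2
    exact h2
  have hl2 : 13 ≤ l := by
    rw [hl]
    have h1 : (2 : ℝ) ^ 13 ≤ n := by linarith
    have h2 := Real.logb_le_logb_of_le (by norm_num : (1 : ℝ) < 2) (by positivity) h1
    rw [Real.logb_pow, Real.logb_self_eq_one (by norm_num), mul_one] at h2
    norm_num at h2
    exact h2
  have hM : 4 * (n * m * b * 2 ^ b) * (2 * n ^ a + 1) + 2 + n ^ a ≤ n ^ (a + 4) := by
    have h1 : 1 ≤ n ^ a := Nat.one_le_pow _ _ (by omega)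
    have hbn : b ≤ n := by
      have : b < 2 ^ b := Nat.lt_two_pow_self
      omega
    have h0 : 64 * (n * m * b * 2 ^ b) ≤ n ^ 4 := by
      calc 64 * (n * m * b * 2 ^ b) = n * (64 * m) * b * 2 ^ b := by ring
        _ ≤ n * n * n * n := by
            apply Nat.mul_le_mul _ hpow
            apply Nat.mul_le_mul _ hbn
            exact Nat.mul_le_mul_left _ (by omega)
        _ = n ^ 4 := by ring
    have h2 : 16 * (4 * (n * m * b * 2 ^ b) * (2 * n ^ a + 1)) ≤ n ^ 4 * (3 * n ^ a) := by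
      calc 16 * (4 * (n * m * b * 2 ^ b) * (2 * n ^ a + 1))
          = 64 * (n * m * b * 2 ^ b) * (2 * n ^ a + 1) := by ring
        _ ≤ n ^ 4 * (3 * n ^ a) := Nat.mul_le_mul h0 (by omega)
    have h4 : 16 * n ^ a ≤ n ^ 4 * n ^ a := by
      apply Nat.mul_le_mul_right
      calc 16 ≤ n := by omega
        _ ≤ n ^ 4 := Nat.le_self_pow (by norm_num) _
    have h5 : n ^ (a + 4) = n ^ 4 * n ^ a := by ring
    rw [h5]
    have e1 : n ^ 4 * (3 * n ^ a) = 3 * (n ^ 4 * n ^ a) := by ring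
    rw [e1] at h2
    omega
  have hlogM : Real.logb 2 ((n ^ (a + 4) : ℕ) : ℝ) ≤ ((a : ℝ) + 4) * l := by
    push_cast
    rw [Real.logb_pow, ← hl]
    push_cast
    exact le_rfl
  have hlogq : Real.logb 2 ((n ^ c : ℕ) : ℝ) ≤ c * l := by
    push_cast
    rw [Real.logb_pow, ← hl]
  have hT : (Fintype.card (ET.Str n m b) : ℝ) = (n : ℝ) * m * b := by
    rw [Fintype.card_prod, Fintype.card_prod, Fintype.card_fin, Fintype.card_fin, Fintype.card_fin]
    push_cast
    ring
  have hmn2 : (n : ℝ) * n ≤ n * (128 * m) := mul_le_mul_of_nonneg_left hn128 (by linarith)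
  have h := circuit_bound' μ hμ (n ^ a) C hC (InRange n (n ^ 2)) (zeroTri n) hF
    (Nat.one_le_pow _ _ (by omega)) hw (n * m * b * 2 ^ b) (n ^ (a + 4)) hM (somes n)
    (T := ET.Str n m b) (by
      intro x hx
      rw [somes, mem_map] at hx
      obtain ⟨i, -, rfl⟩ := hx
      exact ET.asks hmn hm64.le hpow i) (((a : ℝ) + 4) * l) hlogM (by
      rw [hT]
      -- `42 (a + 4) l ≤ n m b`
      have h1 : ((a : ℝ) + 4) * l ≤ (n + 4) * l :=
        mul_le_mul_of_nonneg_right (by linarith) (by linarith)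
      have h2 : ((n : ℝ) + 4) * l ≤ (n + 4) * (b + 1) :=
        mul_le_mul_of_nonneg_left hl1 (by linarith)
      have h3 : ((n : ℝ) + 4) * (b + 1) ≤ (1.01 * n) * (1.1 * b) := by
        apply mul_le_mul _ _ (by linarith) (by linarith)
        · linarith
        · linarith
      have h4 : 64 ≤ (m : ℝ) := by linarith
      have h5 : (n : ℝ) * 64 * b ≤ n * m * b := by
        apply mul_le_mul_of_nonneg_right _ (by linarith)
        exact mul_le_mul_of_nonneg_left h4 (by linarith)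
      have h6 : (0 : ℝ) ≤ n * b := by positivity
      linarith) (c * l) hlogq ((n : ℝ) ^ 3 * b / 128) (by
      rw [card_somes, hT]
      have h1 : (n : ℝ) * ((n : ℝ) * n) * b ≤ n * (n * (128 * m)) * b := by
        apply mul_le_mul_of_nonneg_right _ (by linarith)
        exact mul_le_mul_of_nonneg_left hmn2 (by linarith)
      linarith)
  have hmean := mean_nonneg μ hμ (fun ω => (C ω).load (somes n))
  obtain ⟨X, hX⟩ : ∃ X, X = mean μ (fun ω => (C ω).load (somes n)) := ⟨_, rfl⟩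
  rw [← hX] at h hmean ⊢
  -- `3 + 13 (a + 4) l + 2 (w - 1) c l ≤ (66 a + 2 w c) l ≤ 14/13 (66 a + 2 w c) b`
  have h1 : 3 + 13 * (((a : ℝ) + 4) * l) + 2 * (w - 1) * (c * l) ≤
      (66 * a + 2 * (w * c)) * l := by
    have k1 : 0 ≤ (a - 1) * l := mul_nonneg (by linarith) (by linarith)
    have k2 : 0 ≤ (c : ℝ) * l := by positivity
    nlinarith
  have h2 : (66 * a + 2 * ((w : ℝ) * c)) * l ≤ (66 * (a + w * c)) * (14 / 13 * b) := by
    have k0 : 0 ≤ (w : ℝ) * c := by positivity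
    apply mul_le_mul _ (by linarith) (by linarith) (by positivity)
    linarith
  have h3 : 24 * (3 + 13 * (((a : ℝ) + 4) * l) + 2 * (w - 1) * (c * l)) * X ≤
      24 * ((66 * (a + w * c)) * (14 / 13 * b)) * X := by
    apply mul_le_mul_of_nonneg_right _ hmean
    linarith
  have h4 : b * (n : ℝ) ^ 3 ≤ b * (250000 * (a + w * c) * X) := by
    have k1 : 24 * ((66 * ((a : ℝ) + w * c)) * (14 / 13 * b)) * X =
        (24 * 66 * 14 / 13) * (b * ((a + w * c) * X)) := by ring
    have k2 : 0 ≤ (b : ℝ) * ((a + w * c) * X) := by positivity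
    rw [k1] at h3
    have k3 := h.trans h3
    have k4 : (b : ℝ) * (250000 * (a + w * c) * X) = 250000 * (b * ((a + w * c) * X)) := by ring
    rw [k4]
    linarith
  exact le_of_mul_le_mul_left h4 (by linarith)

/-- exhaustive search -/
theorem et_upper (n w q : ℕ) : ∃ C : Circuit (Option (Fin n)) (Item n) w q,
    C.shared = 0 ∧ C.load (somes n) ≤ 2 * n ^ 3 ∧ ∀ x, C.eval x = zeroTri n x := by
  classical
  -- `1 / 2 - s ^ 2` with `s = (a + c) + B`
  obtain ⟨S, hS⟩ : ∃ S : Fin n × Fin n × Fin n → Fml (Option (Fin n)) (Item n) w q,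
      S = fun p => Fml.add (.item (D := Item n) (some p.1)
        (fun d => ((d.1 p.2.1 + d.2 p.2.2 : ℤ) : ℝ)))
        (.item (D := Item n) none (fun B => (B p.2.1 p.2.2 : ℝ))) := ⟨_, rfl⟩
  have hev : ∀ p x, (S p).eval x = (((x (some p.1)).1 p.2.1 + x none p.2.1 p.2.2 +
      (x (some p.1)).2 p.2.2 : ℤ) : ℝ) := by
    intro p x
    rw [hS]
    simp only [Fml.eval]
    push_cast
    ring
  obtain ⟨F, -, h1, h2⟩ := exists_or_wt (w := w) (q := q) (fun p : Fin n × Fin n × Fin n =>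
    Fml.pos (.add (.const (1 / 2)) (.mul (.const (-1)) (.mul (S p) (S p)))))
    (fun x p => (x (some p.1)).1 p.2.1 + x none p.2.1 p.2.2 + (x (some p.1)).2 p.2.2 = 0)
    (fun x p => by
      simp only [Fml.eval]
      split_ifs <;> simp)
    (fun x p => by
      simp only [Fml.eval, hev]
      obtain ⟨t, ht⟩ : ∃ t, t = (x (some p.1)).1 p.2.1 + x none p.2.1 p.2.2 +
        (x (some p.1)).2 p.2.2 := ⟨_, rfl⟩
      rw [← ht]
      by_cases h : t = 0
      · rw [h]
        norm_num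
      · have h3 : (1 : ℝ) ≤ (t : ℝ) * t := by
          have h4 : 1 ≤ t * t := by
            have : 0 < t * t := mul_self_pos.2 h
            omega
          exact_mod_cast h4
        rw [if_neg (by intro h5; linarith)]
        simp [h])
    (zeroTri n) (fun x => by
      unfold zeroTri
      rw [decide_eq_true_iff]
      constructor
      · rintro ⟨i, k, j, h⟩
        exact ⟨(i, k, j), h⟩
      · rintro ⟨p, h⟩
        exact ⟨p.1, p.2.1, p.2.2, h⟩)
  refine ⟨ofFml F, rfl, le_of_eq ?_, fun x => (ofFml_eval F x).trans (h2 x)⟩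
  rw [ofFml_load_eq, h1, hS]
  have e1 : ∀ i : Fin n, (some i) ∈ somes n := fun i => by
    rw [somes, mem_map]
    exact ⟨i, mem_univ _, rfl⟩
  have e2 : (none : Option (Fin n)) ∉ somes n := by
    rw [somes, mem_map]
    rintro ⟨i, -, h⟩
    exact absurd h (by simp)
  simp only [Fml.wt, e1, e2, if_true, if_false, sum_const, card_univ, Fintype.card_prod,
    Fintype.card_fin, smul_eq_mul]
  ring

end Pool.Agent.Q225.SP
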