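import Pool.Agent.Y638.RF.Lower
import Pool.Agent.TH697.Form.ETDefs

set_option autoImplicit false

/-! # Exact triangles: the weights at one vertex ask for many bits, by few different weights -/

namespace Pool.Agent.Q225.SP.ET

open Finset Pool.Agent.Y638.RF
open Pool.Agent.TH697.Form.ET (Item InRange zeroTri)

/-- the places of the string: rows, labels, bits -/
abbrev Str (n m b : ℕ) : Type := Fin n × Fin m × Fin b

variable {n m b : ℕ} (e : (Fin b → Bool) ↪ Fin n)

/-- the word of a label -/
def wd (z : Str n m b → Bool) (k : Fin n) (u : Fin m) : Fin b → Bool := fun s => z (k, u, s)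

/-- different numbers -/
def lab (m : ℕ) (k : Fin n) (u : Fin m) : ℤ := ((k.val * m + u.val + 1 : ℕ) : ℤ)

theorem lab_inj (k k' : Fin n) (u u' : Fin m) (h : lab m k u = lab m k' u') : k = k' ∧ u = u' := by
  unfold lab at h
  have h1 : k.val * m + u.val = k'.val * m + u'.val := by
    have := Int.ofNat_inj.1 h
    omega
  have h3 : 0 < m := lt_of_le_of_lt (Nat.zero_le _) u.2
  have h2 : (k.val * m + u.val) / m = (k'.val * m + u'.val) / m := by rw [h1]
  rw [mul_comm k.val, mul_comm k'.val, Nat.mul_add_div h3, Nat.mul_add_div h3,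
    Nat.div_eq_of_lt u.2, Nat.div_eq_of_lt u'.2] at h2
  have h4 : k = k' := Fin.ext (by omega)
  subst h4
  exact ⟨rfl, Fin.ext (by omega)⟩

theorem lab_pos (k : Fin n) (u : Fin m) : 1 ≤ lab m k u := by
  unfold lab
  have : 1 ≤ k.val * m + u.val + 1 := by omega
  exact_mod_cast this

theorem lab_lt (k : Fin n) (u : Fin m) (hm : m < n) : lab m k u < n ^ 2 := by
  unfold lab
  have h1 : k.val * m + u.val + 1 < n ^ 2 := by
    have h2 : (k.val + 1) * m ≤ n * m := Nat.mul_le_mul_right _ k.2
    have h3 := u.2
    have h4 : n * (m + 1) ≤ n * n := Nat.mul_le_mul_left _ hm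
    have h5 : 0 < n := lt_of_le_of_lt (Nat.zero_le _) hm
    rw [add_mul, one_mul] at h2
    rw [mul_add, mul_one] at h4
    rw [pow_two]
    omega
  exact_mod_cast h1

open Classical in
/-- the weights which encode the string `z` -/
noncomputable def enc (z : Str n m b → Bool) : ∀ i, Item n i
  | none => fun k j => if h : ∃ u, e (wd z k u) = j then -lab m k h.choose else n ^ 2
  | some _ => (fun _ => 0, fun _ => n ^ 2)

/-- the places which are left if the first bits are those of `p` and the next bit is one -/
def Cand (s : Fin b) (p : Fin b → Bool) (j : Fin n) : Prop :=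
  ∃ w : Fin b → Bool, (∀ s', s' < s → w s' = p s') ∧ w s = true ∧ e w = j

open Classical in
/-- the weights which ask for a bit -/
noncomputable def ask (t : Str n m b) (p : Fin b → Bool) : (Fin n → ℤ) × (Fin n → ℤ) :=
  (fun _ => 0, fun j => if Cand e t.2.2 p j then lab m t.1 t.2.1 else n ^ 2)

theorem ask_congr (t : Str n m b) (p p' : Fin b → Bool) (h : ∀ s', s' < t.2.2 → p s' = p' s') :
    ask e t p = ask e t p' := by
  classical
  have h3 : ∀ j, Cand e t.2.2 p j ↔ Cand e t.2.2 p' j := by
    intro j
    unfold Cand
    constructor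
    · rintro ⟨w, hw1, hw2⟩
      exact ⟨w, fun s hs => by rw [hw1 s hs, h s hs], hw2⟩
    · rintro ⟨w, hw1, hw2⟩
      exact ⟨w, fun s hs => by rw [hw1 s hs, h s hs], hw2⟩
  unfold ask
  refine Prod.ext rfl ?_
  funext j
  exact if_congr (h3 j) rfl rfl

theorem enc_none (i : Fin n) (z : Str n m b → Bool) (d : (Fin n → ℤ) × (Fin n → ℤ)) :
    Function.update (enc e z : ∀ i, Item n i) (some i) d none = enc e z none := by
  rw [Function.update_of_ne (by simp)]

theorem enc_cases (z : Str n m b → Bool) (k j : Fin n) :
    (∃ u, e (wd z k u) = j ∧ enc e z none k j = -lab m k u) ∨ enc e z none k j = n ^ 2 := by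
  by_cases h : ∃ u, e (wd z k u) = j
  · left
    refine ⟨h.choose, h.choose_spec, ?_⟩
    simp only [enc]
    rw [dif_pos h]
  · right
    simp only [enc]
    rw [dif_neg h]

theorem inRange_enc (hm : m < n) (i : Fin n) (z : Str n m b → Bool) (t : Str n m b)
    (p : Fin b → Bool) : InRange n (n ^ 2) (Function.update (enc e z) (some i) (ask e t p)) := by
  have h0 : (0 : ℤ) ≤ (n : ℤ) ^ 2 := by positivity
  refine ⟨fun k j => ?_, fun i' k => ?_⟩
  · rw [enc_none]
    push_cast
    rcases enc_cases e z k j with ⟨u, -, h⟩ | h
    · rw [h, abs_neg, abs_of_pos (by linarith [lab_pos k u])]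
      exact (lab_lt k u hm).le
    · rw [h, abs_of_nonneg h0]
  · push_cast
    by_cases hi : i' = i
    · subst hi
      rw [Function.update_self]
      simp only [ask, abs_zero]
      refine ⟨h0, ?_⟩
      split_ifs
      · rw [abs_of_pos (by linarith [lab_pos t.1 t.2.1])]
        exact (lab_lt _ _ hm).le
      · rw [abs_of_nonneg h0]
    · rw [Function.update_of_ne (by simpa using hi)]
      simp only [enc, abs_zero]
      exact ⟨h0, by rw [abs_of_nonneg h0]⟩

/-- If no other label of the row has the same word, the answer is correct. -/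
theorem zeroTri_enc (hm : m < n) (i : Fin n) (z : Str n m b → Bool) (t : Str n m b)
    (hu : ∀ u', u' ≠ t.2.1 → wd z t.1 u' ≠ wd z t.1 t.2.1) :
    zeroTri n (Function.update (enc e z) (some i) (ask e t (wd z t.1 t.2.1))) = z t := by
  unfold zeroTri
  rw [Bool.eq_iff_iff, decide_eq_true_iff, enc_none]
  constructor
  · rintro ⟨i', k, j, h⟩
    have big : ∀ c : ℤ, c = n ^ 2 → 0 + enc e z none k j + c ≠ 0 := by
      intro c hc
      have hn0 : (0 : ℤ) < (n : ℤ) ^ 2 := by
        have : 0 < n := lt_of_le_of_lt (Nat.zero_le _) hm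
        positivity
      rcases enc_cases e z k j with ⟨u, -, h1⟩ | h1
      · have := lab_lt k u hm
        rw [h1, hc]
        intro h2
        linarith
      · rw [h1, hc]
        intro h2
        linarith
    by_cases hi : i' = i
    · subst hi
      rw [Function.update_self] at h
      simp only [ask] at h
      by_cases hj : Cand e t.2.2 (wd z t.1 t.2.1) j
      · rw [if_pos hj] at h
        rcases enc_cases e z k j with ⟨u, h1, h2⟩ | h2
        · rw [h2] at h
          obtain ⟨h3, h4⟩ := lab_inj k t.1 u t.2.1 (by linarith)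
          obtain ⟨w, -, hw2, hw3⟩ := hj
          rw [← h1, h3, h4] at hw3
          have h5 := e.injective hw3
          rw [h5] at hw2
          exact hw2
        · rw [h2] at h
          have h3 := lab_pos t.1 t.2.1
          have h4 : (0 : ℤ) ≤ (n : ℤ) ^ 2 := by positivity
          linarith
      · rw [if_neg hj] at h
        exact absurd h (big _ rfl)
    · rw [Function.update_of_ne (by simpa using hi)] at h
      exact absurd h (big _ rfl)
  · intro hz
    refine ⟨i, t.1, e (wd z t.1 t.2.1), ?_⟩
    rw [Function.update_self]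
    have hc : Cand e t.2.2 (wd z t.1 t.2.1) (e (wd z t.1 t.2.1)) :=
      ⟨wd z t.1 t.2.1, fun _ _ => rfl, hz, rfl⟩
    simp only [ask]
    rw [if_pos hc]
    rcases enc_cases e z t.1 (e (wd z t.1 t.2.1)) with ⟨u, h1, h2⟩ | h2
    · have h3 := e.injective h1
      have h4 : u = t.2.1 := by
        by_contra h4
        exact hu u h4 h3
      rw [h2, h4]
      ring
    · exfalso
      simp only [enc] at h2
      rw [dif_pos ⟨t.2.1, rfl⟩] at h2
      have h3 := lab_pos t.1 ((⟨t.2.1, rfl⟩ : ∃ u, e (wd z t.1 u) = e (wd z t.1 t.2.1)).choose)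
      have h4 : (0 : ℤ) ≤ (n : ℤ) ^ 2 := by positivity
      linarith

/-- few strings with the same word at two labels -/
theorem card_same (k : Fin n) (u u' : Fin m) (h : u' ≠ u) [DecidableEq (Str n m b → Bool)] :
    (univ.filter fun z : Str n m b → Bool => wd z k u' = wd z k u).card * 2 ^ b ≤
      2 ^ Fintype.card (Str n m b) := by
  classical
  have h1 : ((univ.filter fun z : Str n m b → Bool => wd z k u' = wd z k u) ×ˢ
      (univ : Finset (Fin b → Bool))).card ≤ (univ : Finset (Str n m b → Bool)).card := by
    apply card_le_card_of_injOn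
      (fun a t => if t.1 = k ∧ t.2.1 = u then a.2 t.2.2 else a.1 t)
    · intro a _
      exact mem_coe.2 (mem_univ _)
    · rintro ⟨z1, w1⟩ h1 ⟨z2, w2⟩ h2 h3
      simp only [coe_product, Set.mem_prod, mem_coe, mem_filter, mem_univ, true_and,
        and_true] at h1 h2
      have h4 : w1 = w2 := by
        funext s
        have := congrFun h3 (k, u, s)
        simpa using this
      have h5 : ∀ t : Str n m b, ¬ (t.1 = k ∧ t.2.1 = u) → z1 t = z2 t := by
        intro t ht
        have := congrFun h3 t
        simp only [if_neg ht] at this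
        exact this
      have h6 : z1 = z2 := by
        funext t
        by_cases ht : t.1 = k ∧ t.2.1 = u
        · obtain ⟨k', u1, s⟩ := t
          obtain ⟨rfl, rfl⟩ := ht
          have e1 := congrFun h1 s
          have e2 := congrFun h2 s
          simp only [wd] at e1 e2
          rw [← e1, ← e2]
          exact h5 _ (fun hc => h hc.2)
        · exact h5 t ht
      rw [h4, h6]
  rw [card_product, card_univ, card_univ, Fintype.card_fun, Fintype.card_bool, Fintype.card_fin,
    Fintype.card_fun, Fintype.card_bool] at h1
  exact h1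

theorem asks (hm : m < n) (hmb : 64 * m ≤ 2 ^ b) (hb : 2 ^ b ≤ n) (i : Fin n) :
    Asks (Str n m b) (n * m * b * 2 ^ b) (1 / 64) (InRange n (n ^ 2)) (zeroTri n) (some i) := by
  classical
  have he : Nonempty ((Fin b → Bool) ↪ Fin n) := by
    rw [Function.Embedding.nonempty_iff_card_le, Fintype.card_fun, Fintype.card_bool,
      Fintype.card_fin, Fintype.card_fin]
    exact hb
  obtain ⟨e⟩ := he
  refine asks_of ((univ : Finset (Str n m b × (Fin b → Bool))).image (fun v => ask e v.1 v.2))
    (fun t => t.2.2.val) (fun t z => ask e t (wd z t.1 t.2.1)) (fun z => enc e z) ?_ ?_ ?_ ?_ ?_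
  · refine card_image_le.trans (le_of_eq ?_)
    rw [card_univ, Fintype.card_prod, Fintype.card_prod, Fintype.card_prod, Fintype.card_fun,
      Fintype.card_bool, Fintype.card_fin, Fintype.card_fin, Fintype.card_fin]
    ring
  · intro t z
    exact mem_image_of_mem (fun v : Str n m b × (Fin b → Bool) => ask e v.1 v.2)
      (mem_univ (t, wd z t.1 t.2.1))
  · intro t z z' hz
    apply ask_congr
    intro s' hs'
    exact hz (t.1, t.2.1, s') hs'
  · exact fun t z => inRange_enc e hm i z t _
  · -- the errors
    have h1 : ∀ z : Str n m b → Bool, (univ.filter (fun t => zeroTri n (Function.update (enc e z)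
        (some i) (ask e t (wd z t.1 t.2.1))) ≠ z t)).card ≤
        ∑ t : Str n m b, ∑ u' ∈ univ.filter (fun u' => u' ≠ t.2.1),
          if wd z t.1 u' = wd z t.1 t.2.1 then 1 else 0 := by
      intro z
      rw [card_filter]
      apply sum_le_sum
      intro t _
      split_ifs with ht
      · by_contra hcon
        apply ht
        apply zeroTri_enc e hm i z t
        intro u' hu' heq
        apply hcon
        have h2 : (if wd z t.1 u' = wd z t.1 t.2.1 then 1 else 0) ≤
            ∑ u' ∈ univ.filter (fun u' => u' ≠ t.2.1),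
              if wd z t.1 u' = wd z t.1 t.2.1 then 1 else 0 :=
          single_le_sum (f := fun u' => if wd z t.1 u' = wd z t.1 t.2.1 then 1 else 0)
            (fun _ _ => Nat.zero_le _) (mem_filter.2 ⟨mem_univ _, hu'⟩)
        rw [if_pos heq] at h2
        exact h2
      · exact Nat.zero_le _
    have h2 : (∑ z : Str n m b → Bool, (univ.filter (fun t => zeroTri n (Function.update (enc e z)
        (some i) (ask e t (wd z t.1 t.2.1))) ≠ z t)).card) * 64 ≤
        Fintype.card (Str n m b) * 2 ^ Fintype.card (Str n m b) := by
      have h3 : (∑ z : Str n m b → Bool, (univ.filter (fun t => zeroTri n (Function.update (enc e z)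
        (some i) (ask e t (wd z t.1 t.2.1))) ≠ z t)).card) * 2 ^ b ≤
          Fintype.card (Str n m b) * (m * 2 ^ Fintype.card (Str n m b)) := by
        calc _ ≤ (∑ z : Str n m b → Bool, ∑ t : Str n m b,
              ∑ u' ∈ univ.filter (fun u' => u' ≠ t.2.1),
                if wd z t.1 u' = wd z t.1 t.2.1 then 1 else 0) * 2 ^ b :=
              Nat.mul_le_mul_right _ (sum_le_sum fun z _ => h1 z)
          _ = ∑ t : Str n m b, ∑ u' ∈ univ.filter (fun u' => u' ≠ t.2.1),
                (univ.filter fun z : Str n m b → Bool =>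
                  wd z t.1 u' = wd z t.1 t.2.1).card * 2 ^ b := by
              rw [sum_comm, sum_mul]
              refine sum_congr rfl fun t _ => ?_
              rw [sum_comm, sum_mul]
              refine sum_congr rfl fun u' _ => ?_
              rw [card_filter]
          _ ≤ ∑ t : Str n m b, ∑ u' ∈ univ.filter (fun u' => u' ≠ t.2.1),
                2 ^ Fintype.card (Str n m b) := by
              refine sum_le_sum fun t _ => sum_le_sum fun u' hu' => ?_
              exact card_same t.1 t.2.1 u' (mem_filter.1 hu').2
          _ ≤ ∑ _t : Str n m b, m * 2 ^ Fintype.card (Str n m b) := by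
              refine sum_le_sum fun t _ => ?_
              rw [sum_const, smul_eq_mul]
              apply Nat.mul_le_mul_right
              refine (card_filter_le _ _).trans ?_
              rw [card_univ, Fintype.card_fin]
          _ = _ := by rw [sum_const, smul_eq_mul, card_univ]
      have h4 : 0 < 2 ^ b := by positivity
      refine Nat.le_of_mul_le_mul_right ?_ h4
      calc _ = (∑ z : Str n m b → Bool, (univ.filter (fun t => zeroTri n (Function.update
            (enc e z) (some i) (ask e t (wd z t.1 t.2.1))) ≠ z t)).card) * 2 ^ b * 64 := by ring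
        _ ≤ Fintype.card (Str n m b) * (m * 2 ^ Fintype.card (Str n m b)) * 64 :=
            Nat.mul_le_mul_right _ h3
        _ = Fintype.card (Str n m b) * 2 ^ Fintype.card (Str n m b) * (64 * m) := by ring
        _ ≤ _ := Nat.mul_le_mul_left _ hmb
    have h3 : (∑ z : Str n m b → Bool, ((univ.filter (fun t => zeroTri n (Function.update (enc e z)
        (some i) (ask e t (wd z t.1 t.2.1))) ≠ z t)).card : ℝ)) * 64 ≤
        (Fintype.card (Str n m b) : ℝ) * 2 ^ Fintype.card (Str n m b) := by
      exact_mod_cast h2
    linarith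

end Pool.Agent.Q225.SP.ET
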