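import Pool.Agent.Q225.SP.Bound

set_option autoImplicit false

/-! # Local gates -/

namespace Pool.Agent.Q225.SP

open Finset Pool.Agent.Y638.RF
open Pool.Agent.TH697.Form (IsProb)

variable {ι : Type} {D : ι → Type} {w q : ℕ}

/-- The number of all readings of the gates. -/
def Gates.reads : {k : ℕ} → Gates ι D w q k → ℕ
  | _, .nil => 0
  | _, .snoc P B _ => P.reads + B.wt (fun _ => 1)

/-- The number of all readings (of items and of bits of gates). -/
def Circuit.reads (C : Circuit ι D w q) : ℕ := C.gates.reads + C.output.wt (fun _ => 1)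

/-- Every gate whose bit may be used depends on at most `d` of the items in `I`. -/
def Circuit.IsLocal [DecidableEq ι] (I : Finset ι) (d : ℕ) (C : Circuit ι D w q) : Prop :=
  ∀ l, (I.filter (fun i => C.gates.deps i l = true)).card ≤ d

theorem fml_wt_const (d : ℕ) {W : ι → ℕ} (h : ∀ a, W a ≤ d) (F : Fml ι D w q) :
    F.wt W ≤ d * F.wt (fun _ => 1) := by
  induction F with
  | const c => exact Nat.zero_le _
  | item j f =>
    simp only [Fml.wt, mul_one]
    exact h j
  | word τ =>
    simp only [Fml.wt]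
    rw [mul_sum]
    exact sum_le_sum fun k _ => by rw [mul_one]; exact h _
  | add F G ihF ihG =>
    simp only [Fml.wt, mul_add]
    omega
  | mul F G ihF ihG =>
    simp only [Fml.wt, mul_add]
    omega
  | pos F ih => exact ih
  | sym k H F ih =>
    simp only [Fml.wt]
    rw [mul_sum]
    exact sum_le_sum fun j _ => ih j

theorem bp_wt_const (d : ℕ) {W : ι → ℕ} (h : ∀ a, W a ≤ d) :
    ∀ {n : ℕ} (B : BP ι D w q n), B.wt W ≤ d * B.wt (fun _ => 1)
  | _, .sinks => Nat.zero_le _
  | _, .node B F _ _ => by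
    have h1 := bp_wt_const d h B
    have h2 := fml_wt_const d h F
    simp only [BP.wt, mul_add]
    omega

variable [DecidableEq ι]

theorem Gates.total_le (I : Finset ι) (d : ℕ) (hd : 1 ≤ d) : ∀ {k : ℕ} (P : Gates ι D w q k),
    (∀ l, (I.filter (fun i => P.deps i l = true)).card ≤ d) → P.total I ≤ d * P.reads
  | _, .nil, _ => Nat.zero_le _
  | _, @Gates.snoc _ _ _ _ k P n B v, h => by
    have h0 : ∀ l, (I.filter (fun i => P.deps i l = true)).card ≤ d := by
      intro l
      have := h l.castSucc
      simpa only [Gates.deps_castSucc] using this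
    have h1 := Gates.total_le I d hd P h0
    have h2 : B.wt (P.load I) ≤ d * B.wt (fun _ => 1) := by
      apply bp_wt_const
      rintro (i | l)
      · simp only [Gates.load, Sum.elim_inl]
        split_ifs <;> omega
      · exact h0 l
    simp only [Gates.total, Gates.reads, mul_add]
    omega

theorem Circuit.load_le (I : Finset ι) (d : ℕ) (hd : 1 ≤ d) (C : Circuit ι D w q)
    (h : C.IsLocal I d) : C.load I ≤ d * C.reads := by
  have h1 := C.gates.total_le I d hd h
  have h2 : C.output.wt (C.gates.load I) ≤ d * C.output.wt (fun _ => 1) := by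
    apply bp_wt_const
    rintro (i | l)
    · simp only [Gates.load, Sum.elim_inl]
      split_ifs <;> omega
    · exact h l
  unfold Circuit.load Circuit.reads
  rw [mul_add]
  omega

theorem mean_load_le {Ω : Type} [Fintype Ω] (μ : Ω → ℝ) (hμ : IsProb μ) (I : Finset ι) (d : ℕ)
    (hd : 1 ≤ d) (C : Ω → Circuit ι D w q) (h : ∀ ω, (C ω).IsLocal I d) :
    mean μ (fun ω => (C ω).load I) ≤ d * mean μ (fun ω => (C ω).reads) := by
  unfold mean
  rw [mul_sum]
  refine sum_le_sum fun ω _ => ?_
  have h1 : ((C ω).load I : ℝ) ≤ d * ((C ω).reads : ℝ) := by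
    exact_mod_cast (C ω).load_le I d hd (h ω)
  have h2 := mul_le_mul_of_nonneg_left h1 (hμ.nonneg ω)
  linarith

/-- From the load to the number of readings. -/
theorem local_bound {Ω : Type} [Fintype Ω] (μ : Ω → ℝ) (hμ : IsProb μ) (I : Finset ι) (d : ℕ)
    (hd : 1 ≤ d) (C : Ω → Circuit ι D w q) (h : ∀ ω, (C ω).IsLocal I d) {t b : ℝ} (hb : 0 ≤ b)
    (ht : t ≤ b * mean μ (fun ω => (C ω).load I)) :
    t ≤ b * (d * mean μ (fun ω => (C ω).reads)) :=
  ht.trans (mul_le_mul_of_nonneg_left (mean_load_le μ hμ I d hd C h) hb)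

end Pool.Agent.Q225.SP
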