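import Pool.Agent.Q225.SP.Core

set_option autoImplicit false

/-! # The lower bound for random circuits -/

namespace Pool.Agent.Q225.SP

open Finset Pool.Agent.Y638.RF
open Pool.Agent.TH697.Form (IsProb)
open Pool.Agent.TH697.Row (ApproximatesOn)

variable {ι : Type} {D : ι → Type} [DecidableEq ι] {w q : ℕ}
  {T : Type} [Fintype T] {Ω : Type} [Fintype Ω]

/-- The lower bound for random circuits: if every item in `I` can ask for the bits of a string with
`T` places, then the expected total load is large. -/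
theorem circuit_lower (μ : Ω → ℝ) (hμ : IsProb μ) (s : ℕ) (C : Ω → Circuit ι D w q)
    (hC : ∀ ω, (C ω).SizeLE s) (P : (∀ i, D i) → Prop) (f : (∀ i, D i) → Bool)
    (hF : ApproximatesOn μ (fun ω => (C ω).eval) P f)
    (hq : 1 ≤ q) (hw : 1 ≤ w) (K M : ℕ) (hM : 4 * K * (2 * s + 1) + 2 + s ≤ M) (δ : ℝ)
    (I : Finset ι) (h : ∀ i ∈ I, Asks T K δ P f i) :
    (I.card : ℝ) * ((49 / 600 - δ) * Fintype.card T - Real.logb 2 M) ≤
      (3 + 13 * Real.logb 2 M + 2 * (w - 1) * Real.logb 2 q) *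
        mean μ (fun ω => (C ω).load I) := by
  classical
  have h6 : (0 : ℝ) < Real.log 2 := Real.log_pos (by norm_num)
  have hlq : 0 ≤ Real.log (q : ℝ) := Real.log_nonneg (by exact_mod_cast hq)
  have hlM : 0 ≤ Real.log (M : ℝ) := Real.log_nonneg (by exact_mod_cast (by omega : 1 ≤ M))
  have hw' : ((w - 1 : ℕ) : ℝ) = (w : ℝ) - 1 := by
    rw [Nat.cast_sub hw, Nat.cast_one]
  have hw1 : (0 : ℝ) ≤ (w : ℝ) - 1 := by rw [← hw']; positivity
  obtain ⟨E, hE⟩ : ∃ E, E = 2 * M ^ 5 * q ^ (w - 1) := ⟨_, rfl⟩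
  obtain ⟨c, hc⟩ : ∃ c : ℝ, c = 3 * Real.log 2 + 13 * Real.log M + 2 * (w - 1) * Real.log q :=
    ⟨_, rfl⟩
  have hM' : (0 : ℝ) < M := by exact_mod_cast (by omega : 0 < M)
  have hq' : (0 : ℝ) < q := by exact_mod_cast hq
  have hEpos : (0 : ℝ) < E := by
    rw [hE]
    push_cast
    positivity
  have hcE : c = Real.log (2 * M ^ 3 * E ^ 2) := by
    rw [hc, hE]
    push_cast
    rw [Real.log_mul (by positivity) (by positivity), Real.log_mul (by positivity) (by positivity),
      Real.log_pow, Real.log_pow, Real.log_mul (by positivity) (by positivity),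
      Real.log_mul (by positivity) (by positivity), Real.log_pow, Real.log_pow, hw']
    push_cast
    ring
  have h1 : ∀ i ∈ I, (49 / 600 - δ) * Fintype.card T * Real.log 2
      ≤ ∑ ω, μ ω * (Real.log M + c * ((C ω).tot i : ℝ)) := by
    intro i hi
    obtain ⟨A, r, Q, R, hA, hQA, hQ, hP, hf⟩ := h i hi
    obtain ⟨y, hy⟩ : ∃ y : {d // d ∈ A} → D i, y = fun v => v.1 := ⟨_, rfl⟩
    have hM' : 4 * Fintype.card {d // d ∈ A} * (2 * s + 1) + 2 + s ≤ M := by
      rw [Fintype.card_coe]
      have : 4 * A.card * (2 * s + 1) ≤ 4 * K * (2 * s + 1) :=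
        Nat.mul_le_mul_right _ (Nat.mul_le_mul_left _ hA)
      omega
    choose S hS1 hS2 using fun ω =>
      Circuit.subfunctions i y s M E hq hM' hE (C ω) (hC ω)
    refine (gen_err μ hμ (fun ω => (C ω).eval) P f hF i y S (fun ω z => hS2 ω z) r
      (fun t z => ⟨Q t z, hQA t z⟩) (fun t z z' hz => Subtype.ext (hQ t z z' hz)) R
      (fun t z => by rw [hy]; exact hP t z) δ (by rw [hy]; exact hf)).trans ?_
    apply sum_le_sum
    intro ω _
    apply mul_le_mul_of_nonneg_left _ (hμ.nonneg ω)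
    have hne : 1 ≤ (S ω).card := card_pos.2 ⟨_, hS2 ω (R (fun _ => false))⟩
    have h2 : ((S ω).card : ℝ) ≤ M * (2 * (M : ℝ) ^ 3 * (E : ℝ) ^ 2) ^ (C ω).tot i := by
      exact_mod_cast hS1 ω
    have h4 := Real.log_le_log (by exact_mod_cast hne) h2
    rw [Real.log_mul (by positivity) (by positivity), Real.log_pow, ← hcE] at h4
    linarith
  have h2 := sum_le_sum h1
  rw [sum_const, nsmul_eq_mul, sum_comm] at h2
  have h3 : ∑ ω, ∑ i ∈ I, μ ω * (Real.log M + c * ((C ω).tot i : ℝ)) =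
      I.card * Real.log M + c * mean μ (fun ω => (C ω).load I) := by
    have e1 : (I.card : ℝ) * Real.log M + c * mean μ (fun ω => (C ω).load I) =
        ∑ ω, μ ω * (I.card * Real.log M + c * ((C ω).load I : ℝ)) := by
      unfold mean
      simp only [mul_add, sum_add_distrib]
      rw [← sum_mul, hμ.sum_one, one_mul, mul_sum]
      congr 1
      refine sum_congr rfl fun ω _ => ?_
      ring
    rw [e1]
    apply sum_congr rfl
    intro ω _
    rw [← mul_sum, sum_add_distrib, sum_const, nsmul_eq_mul, ← mul_sum]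
    congr 3
    rw [← Circuit.sum_tot]
    push_cast
    rfl
  rw [h3] at h2
  have h7 : (3 + 13 * Real.logb 2 M + 2 * (w - 1) * Real.logb 2 q) *
      mean μ (fun ω => (C ω).load I) * Real.log 2 = c * mean μ (fun ω => (C ω).load I) := by
    rw [hc, Real.logb, Real.logb]
    field_simp
  have h8 : (I.card : ℝ) * ((49 / 600 - δ) * Fintype.card T - Real.logb 2 M) * Real.log 2 =
      I.card * ((49 / 600 - δ) * Fintype.card T * Real.log 2) - I.card * Real.log M := by
    rw [Real.logb]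
    field_simp
  have h5 : (I.card : ℝ) * ((49 / 600 - δ) * Fintype.card T - Real.logb 2 M) * Real.log 2 ≤
      (3 + 13 * Real.logb 2 M + 2 * (w - 1) * Real.logb 2 q) *
        mean μ (fun ω => (C ω).load I) * Real.log 2 := by
    rw [h7, h8]
    linarith
  exact le_of_mul_le_mul_right h5 h6

theorem mean_nonneg (μ : Ω → ℝ) (hμ : IsProb μ) (a : Ω → ℕ) : 0 ≤ mean μ a := by
  unfold mean
  exact sum_nonneg fun ω _ => mul_nonneg (hμ.nonneg ω) (Nat.cast_nonneg _)

theorem mean_ge (μ : Ω → ℝ) (hμ : IsProb μ) (a : Ω → ℕ) (b : ℝ) (h : ∀ ω, b ≤ a ω) :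
    b ≤ mean μ a := by
  unfold mean
  calc b = ∑ ω, μ ω * b := by rw [← sum_mul, hμ.sum_one, one_mul]
    _ ≤ _ := sum_le_sum fun ω _ => mul_le_mul_of_nonneg_left (h ω) (hμ.nonneg ω)

/-! ### Formulas and branching programs are circuits -/

/-- A branching program as a circuit without shared gates. -/
def ofBP {n : ℕ} (B : BP ι D w q n) (v : Fin (n + 2)) : Circuit ι D w q where
  shared := 0
  gates := .nil
  nodes := n
  output := B.relabel (fun i => ⟨Sum.inl i, fun e => e⟩)
  start := v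

theorem ofBP_eval {n : ℕ} (B : BP ι D w q n) (v : Fin (n + 2)) (x : ∀ i, D i) :
    (ofBP B v).eval x = B.val x v := by
  unfold Circuit.eval ofBP
  simp only
  rw [BP.val_relabel]
  rfl

theorem fml_wt_le (W : ι → ℕ) (hW : ∀ i, W i ≤ 1) (F : Fml ι D w q) (hw : 1 ≤ w) :
    F.wt W ≤ w * F.size := by
  induction F with
  | const c => exact Nat.zero_le _
  | item j f => exact (hW j).trans (by simp only [Fml.size]; omega)
  | word τ =>
    simp only [Fml.wt, Fml.size, mul_one]
    calc ∑ k, W (τ.item k) ≤ ∑ _k : Fin w, 1 := sum_le_sum fun k _ => hW _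
      _ = w := by simp
  | add F G ihF ihG =>
    simp only [Fml.wt, Fml.size, mul_add]
    omega
  | mul F G ihF ihG =>
    simp only [Fml.wt, Fml.size, mul_add]
    omega
  | pos F ih => exact ih
  | sym k H F ih =>
    simp only [Fml.wt, Fml.size, mul_add]
    calc ∑ j, (F j).wt W ≤ ∑ j, w * (F j).size := sum_le_sum fun j _ => ih j
      _ = w * ∑ j, (F j).size := by rw [mul_sum]
      _ ≤ _ := by omega

theorem fml_wt_relabel {β : Type} {E : β → Type} (R : ∀ i, Σ b : β, (E b → D i)) (W : β → ℕ)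
    (F : Fml ι D w q) : (F.relabel R).wt W = F.wt (fun i => W (R i).1) := by
  induction F with
  | const c => rfl
  | item i f => rfl
  | word τ => rfl
  | add F G ihF ihG => simp only [Fml.relabel, Fml.wt, ihF, ihG]
  | mul F G ihF ihG => simp only [Fml.relabel, Fml.wt, ihF, ihG]
  | pos F ih => simpa only [Fml.relabel, Fml.wt] using ih
  | sym k h F ih => simp only [Fml.relabel, Fml.wt, ih]

/-- A formula as a circuit. -/
def ofFml (F : Fml ι D w q) : Circuit ι D w q := ofBP (BP.node .sinks F 0 1) 2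

theorem ofFml_eval (F : Fml ι D w q) (x : ∀ i, D i) : (ofFml F).eval x = F.accepts x := by
  unfold ofFml
  rw [ofBP_eval]
  have e : (2 : Fin (1 + 2)) = Fin.last 2 := rfl
  rw [e]
  simp only [BP.val, Fin.lastCases_last]
  cases F.accepts x <;> simp

theorem ofFml_size (F : Fml ι D w q) : (ofFml F).SizeLE (F.size + 1) := by
  refine ⟨trivial, ?_⟩
  unfold ofFml ofBP
  simp only
  rw [BP.size_relabel]
  simp [BP.size]

theorem ofFml_load_eq (I : Finset ι) (F : Fml ι D w q) :
    (ofFml F).load I = F.wt (fun i => if i ∈ I then 1 else 0) := by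
  unfold Circuit.load ofFml ofBP
  simp only [Gates.total, BP.relabel, BP.wt, zero_add]
  rw [fml_wt_relabel]
  rfl

/-- disjunctions of formulas with the values `0` and `1` -/
theorem exists_or_wt {κ : Type} [Fintype κ] (G : κ → Fml ι D w q) (p : (∀ i, D i) → κ → Prop)
    (hG : ∀ x k, (G k).eval x = 0 ∨ (G k).eval x = 1)
    (hp : ∀ x k, (G k).eval x = 1 ↔ p x k)
    (f : (∀ i, D i) → Bool) (hf : ∀ x, f x = true ↔ ∃ k, p x k) :
    ∃ F : Fml ι D w q, F.size = ∑ k, (G k).size ∧ (∀ W, F.wt W = ∑ k, (G k).wt W) ∧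
      ∀ x, F.accepts x = f x := by
  classical
  have h0 : ∀ s : Finset κ, ∃ F : Fml ι D w q, F.size = ∑ k ∈ s, (G k).size ∧
      (∀ W, F.wt W = ∑ k ∈ s, (G k).wt W) ∧ ∀ x, F.eval x = ∑ k ∈ s, (G k).eval x := by
    intro s
    induction s using Finset.induction_on with
    | empty => exact ⟨.const 0, rfl, fun W => rfl, fun x => rfl⟩
    | insert a s ha ih =>
      obtain ⟨F, h1, h2, h3⟩ := ih
      refine ⟨.add (G a) F, ?_, fun W => ?_, fun x => ?_⟩
      · rw [sum_insert ha, ← h1]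
        rfl
      · rw [sum_insert ha, ← h2]
        rfl
      · rw [sum_insert ha, ← h3]
        rfl
  obtain ⟨F, h1, h1', h2⟩ := h0 univ
  refine ⟨F, h1, h1', fun x => ?_⟩
  unfold Fml.accepts
  rw [Bool.eq_iff_iff, decide_eq_true_iff, h2, hf]
  have hnn : ∀ k, 0 ≤ (G k).eval x := fun k => by
    rcases hG x k with h | h <;> rw [h]; norm_num
  constructor
  · intro h
    obtain ⟨k, -, hk⟩ := (sum_pos_iff_of_nonneg (fun k _ => hnn k)).1 h
    refine ⟨k, (hp x k).1 ?_⟩
    rcases hG x k with h | h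
    · rw [h] at hk
      exact absurd hk (lt_irrefl _)
    · exact h
  · rintro ⟨k, hk⟩
    rw [sum_pos_iff_of_nonneg (fun k _ => hnn k)]
    exact ⟨k, mem_univ _, by rw [(hp x k).2 hk]; norm_num⟩

theorem ofFml_load (I : Finset ι) (F : Fml ι D w q) (hw : 1 ≤ w) :
    (ofFml F).load I ≤ w * F.size := by
  rw [ofFml_load_eq]
  exact fml_wt_le _ (fun i => by split_ifs <;> omega) F hw

end Pool.Agent.Q225.SP
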