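import Pool.Agent.Y638.RF.Prog

set_option autoImplicit false

/-! # Real formulas and branching programs: weighted readings, and other inputs -/

namespace Pool.Agent.Y638.RF

open Finset

variable {ι β : Type} {D : ι → Type} {E : β → Type} {w q : ℕ}

/-- The readings, counted with weights: each leaf which is a function of item `i` counts `W i`, and a
word counts `W i` for each of the items `i` which it sees. -/
def Fml.wt (W : ι → ℕ) : Fml ι D w q → ℕ
  | .const _ => 0
  | .item i _ => W i
  | .word τ => ∑ k, W (τ.item k)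
  | .add F G => F.wt W + G.wt W
  | .mul F G => F.wt W + G.wt W
  | .pos F => F.wt W
  | .sym _ _ F => ∑ j, (F j).wt W

/-- The readings of all the formulas of a branching program, counted with weights. -/
def BP.wt (W : ι → ℕ) : {n : ℕ} → BP ι D w q n → ℕ
  | _, .sinks => 0
  | _, .node B F _ _ => B.wt W + F.wt W

theorem Fml.wt_sum {κ : Type} (I : Finset κ) (W : κ → ι → ℕ) (F : Fml ι D w q) :
    ∑ i ∈ I, F.wt (W i) = F.wt (fun a => ∑ i ∈ I, W i a) := by
  induction F with
  | const c => simp [Fml.wt]
  | item j f => rfl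
  | word τ => simp only [Fml.wt]; rw [sum_comm]
  | add F G ihF ihG => simp only [Fml.wt, sum_add_distrib, ihF, ihG]
  | mul F G ihF ihG => simp only [Fml.wt, sum_add_distrib, ihF, ihG]
  | pos F ih => simpa only [Fml.wt] using ih
  | sym k h F ih =>
    simp only [Fml.wt]
    rw [sum_comm]
    exact sum_congr rfl fun j _ => ih j

theorem BP.wt_sum {κ : Type} (I : Finset κ) (W : κ → ι → ℕ) :
    ∀ {n : ℕ} (B : BP ι D w q n), ∑ i ∈ I, B.wt (W i) = B.wt (fun a => ∑ i ∈ I, W i a)
  | _, .sinks => by simp [BP.wt]
  | _, .node B F _ _ => by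
    simp only [BP.wt, sum_add_distrib]
    rw [BP.wt_sum I W B, Fml.wt_sum I W F]

theorem Fml.wt_mono {W W' : ι → ℕ} (h : ∀ a, W a ≤ W' a) (F : Fml ι D w q) :
    F.wt W ≤ F.wt W' := by
  induction F with
  | const c => exact le_rfl
  | item j f => exact h j
  | word τ => exact sum_le_sum fun k _ => h _
  | add F G ihF ihG => exact Nat.add_le_add ihF ihG
  | mul F G ihF ihG => exact Nat.add_le_add ihF ihG
  | pos F ih => exact ih
  | sym k H F ih => exact sum_le_sum fun j _ => ih j

theorem BP.wt_mono {W W' : ι → ℕ} (h : ∀ a, W a ≤ W' a) :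
    ∀ {n : ℕ} (B : BP ι D w q n), B.wt W ≤ B.wt W'
  | _, .sinks => le_rfl
  | _, .node B F _ _ => Nat.add_le_add (BP.wt_mono h B) (Fml.wt_mono h F)

/-- The value depends only on the items which are read. -/
theorem Fml.eval_congr {W : ι → ℕ} (F : Fml ι D w q) (h : F.wt W = 0) {x x' : ∀ i, D i}
    (hx : ∀ a, W a = 0 → x a = x' a) : F.eval x = F.eval x' := by
  induction F with
  | const c => rfl
  | item j f => simp only [Fml.eval]; rw [hx j h]
  | word τ =>
    simp only [Fml.eval]
    simp only [Fml.wt] at h
    congr 1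
    funext k
    rw [hx _ ((sum_eq_zero_iff.1 h) k (mem_univ k))]
  | add F G ihF ihG =>
    simp only [Fml.wt] at h
    simp only [Fml.eval, ihF (by omega), ihG (by omega)]
  | mul F G ihF ihG =>
    simp only [Fml.wt] at h
    simp only [Fml.eval, ihF (by omega), ihG (by omega)]
  | pos F ih => simp only [Fml.eval, ih h]
  | sym k H F ih =>
    simp only [Fml.wt] at h
    simp only [Fml.eval]
    have h1 : ∀ j, (F j).eval x = (F j).eval x' := fun j =>
      ih j ((sum_eq_zero_iff.1 h) j (mem_univ j))
    simp only [h1]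

theorem BP.val_congr {W : ι → ℕ} : ∀ {n : ℕ} (B : BP ι D w q n) (_ : B.wt W = 0)
    {x x' : ∀ i, D i} (_ : ∀ a, W a = 0 → x a = x' a) (v : Fin (n + 2)), B.val x v = B.val x' v
  | _, .sinks, _, _, _, _, _ => rfl
  | _, .node B F no yes, h, x, x', hx, v => by
    simp only [BP.wt] at h
    have h1 : F.eval x = F.eval x' := F.eval_congr (by omega) hx
    have h2 : F.accepts x = F.accepts x' := by
      unfold Fml.accepts
      rw [h1]
    refine Fin.lastCases ?_ (fun u => ?_) v
    · simp only [BP.val, Fin.lastCases_last]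
      rw [h2, BP.val_congr B (by omega) hx yes, BP.val_congr B (by omega) hx no]
    · simp only [BP.val, Fin.lastCases_castSucc]
      exact BP.val_congr B (by omega) hx u

/-! ### Another input -/

/-- Every item `i` is computed from the item `(R i).1` of another input, by the function
`(R i).2`. -/
def Fml.relabel (R : ∀ i, Σ b : β, (E b → D i)) : Fml ι D w q → Fml β E w q
  | .const c => .const c
  | .item i f => .item (R i).1 (fun e => f ((R i).2 e))
  | .word τ => .word ⟨fun k => (R (τ.item k)).1, fun k e => τ.view k ((R (τ.item k)).2 e), τ.out⟩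
  | .add F G => .add (F.relabel R) (G.relabel R)
  | .mul F G => .mul (F.relabel R) (G.relabel R)
  | .pos F => .pos (F.relabel R)
  | .sym k h F => .sym k h (fun j => (F j).relabel R)

/-- The input which is computed from another one. -/
def pull (R : ∀ i, Σ b : β, (E b → D i)) (x : ∀ b, E b) : ∀ i, D i := fun i => (R i).2 (x (R i).1)

theorem Fml.eval_relabel (R : ∀ i, Σ b : β, (E b → D i)) (F : Fml ι D w q) (x : ∀ b, E b) :
    (F.relabel R).eval x = F.eval (pull R x) := by
  induction F with
  | const c => rfl
  | item i f => rfl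
  | word τ => rfl
  | add F G ihF ihG => simp only [Fml.relabel, Fml.eval, ihF, ihG]
  | mul F G ihF ihG => simp only [Fml.relabel, Fml.eval, ihF, ihG]
  | pos F ih => simp only [Fml.relabel, Fml.eval, ih]
  | sym k h F ih => simp only [Fml.relabel, Fml.eval, ih]

theorem Fml.size_relabel (R : ∀ i, Σ b : β, (E b → D i)) (F : Fml ι D w q) :
    (F.relabel R).size = F.size := by
  induction F with
  | const c => rfl
  | item i f => rfl
  | word τ => rfl
  | add F G ihF ihG => simp only [Fml.relabel, Fml.size, ihF, ihG]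
  | mul F G ihF ihG => simp only [Fml.relabel, Fml.size, ihF, ihG]
  | pos F ih => simp only [Fml.relabel, Fml.size, ih]
  | sym k h F ih => simp only [Fml.relabel, Fml.size, ih]

theorem Fml.reads_relabel [DecidableEq β] (R : ∀ i, Σ b : β, (E b → D i)) (b : β) {W : ι → ℕ}
    (hW : ∀ i, (R i).1 = b → 1 ≤ W i) (F : Fml ι D w q) :
    (F.relabel R).reads b ≤ F.wt W := by
  induction F with
  | const c => exact le_rfl
  | item i f =>
    simp only [Fml.relabel, Fml.reads, Fml.wt]
    split_ifs with h
    · exact hW i h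
    · exact Nat.zero_le _
  | word τ =>
    simp only [Fml.relabel, Fml.reads, Fml.wt]
    split_ifs with h
    · obtain ⟨k, hk⟩ := h
      exact (hW _ hk).trans (single_le_sum (f := fun k => W (τ.item k))
        (fun _ _ => Nat.zero_le _) (mem_univ k))
    · exact Nat.zero_le _
  | add F G ihF ihG => exact Nat.add_le_add ihF ihG
  | mul F G ihF ihG => exact Nat.add_le_add ihF ihG
  | pos F ih => exact ih
  | sym k H F ih => exact sum_le_sum fun j _ => ih j

/-- Branching programs for another input. -/
def BP.relabel (R : ∀ i, Σ b : β, (E b → D i)) : {n : ℕ} → BP ι D w q n → BP β E w q n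
  | _, .sinks => .sinks
  | _, .node B F no yes => .node (B.relabel R) (F.relabel R) no yes

theorem BP.val_relabel (R : ∀ i, Σ b : β, (E b → D i)) : ∀ {n : ℕ} (B : BP ι D w q n)
    (x : ∀ b, E b) (v : Fin (n + 2)), (B.relabel R).val x v = B.val (pull R x) v
  | _, .sinks, _, _ => rfl
  | _, .node B F no yes, x, v => by
    have h2 : (F.relabel R).accepts x = F.accepts (pull R x) := by
      unfold Fml.accepts
      rw [Fml.eval_relabel]
    refine Fin.lastCases ?_ (fun u => ?_) v
    · simp only [BP.relabel, BP.val, Fin.lastCases_last]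
      rw [h2, BP.val_relabel R B x yes, BP.val_relabel R B x no]
    · simp only [BP.relabel, BP.val, Fin.lastCases_castSucc]
      exact BP.val_relabel R B x u

theorem BP.size_relabel (R : ∀ i, Σ b : β, (E b → D i)) : ∀ {n : ℕ} (B : BP ι D w q n),
    (B.relabel R).size = B.size
  | _, .sinks => rfl
  | _, .node B F no yes => by
    simp only [BP.relabel, BP.size]
    rw [BP.size_relabel R B, Fml.size_relabel]

theorem BP.reads_relabel [DecidableEq β] (R : ∀ i, Σ b : β, (E b → D i)) (b : β) {W : ι → ℕ}
    (hW : ∀ i, (R i).1 = b → 1 ≤ W i) : ∀ {n : ℕ} (B : BP ι D w q n),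
    (B.relabel R).reads b ≤ B.wt W
  | _, .sinks => le_rfl
  | _, .node B F no yes => Nat.add_le_add (BP.reads_relabel R b hW B) (Fml.reads_relabel R b hW F)

end Pool.Agent.Y638.RF
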